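import Pool.Agent.W2helper55.HLM.UD
import Pool.Agent.R587.LS

/-!
# Definable closure
-/

set_option autoImplicit false

namespace Pool.Agent.W2helper55.HLM

open Pool.Agent.W868 Pool.Agent.R587
open ZFSet (pair)
open Cardinal

/-- The definable closure of `A` in `X`. -/
inductive Dc (X A : Set ZFSet.{0}) : ZFSet.{0} → Prop
  | base {a : ZFSet.{0}} (h : a ∈ A) : Dc X A a
  | step {n : ℕ} (φ : Fml Empty (n + 1)) (v : Fin n → ZFSet.{0}) (x : ZFSet.{0})
      (hv : ∀ i, Dc X A (v i)) (hx : x ∈ X)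
      (h : ∀ y ∈ X, Sat X Empty.elim φ (Fin.cons y v) ↔ y = x) : Dc X A x

variable {X A B : Set ZFSet.{0}}

theorem Dc.mem (hA : A ⊆ X) {x : ZFSet.{0}} (h : Dc X A x) : x ∈ X := by
  cases h with
  | base h => exact hA h
  | step φ v x hv hx h => exact hx

theorem Dc.trans' (hAB : ∀ a ∈ A, Dc X B a) {x : ZFSet.{0}} (h : Dc X A x) : Dc X B x := by
  induction h with
  | base h => exact hAB _ h
  | step φ v x hv hx h ih => exact .step φ v x ih hx h

theorem Dc.mono (hAB : A ⊆ B) {x : ZFSet.{0}} (h : Dc X A x) : Dc X B x :=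
  h.trans' fun _ ha => .base (hAB ha)

/-- Closure under uniformly definable operations. -/
theorem Dc.of_ud (hX : ∀ x ∈ X, ∀ y ∈ x, y ∈ X) (hA : A ⊆ X) {n : ℕ}
    {R : Set ZFSet.{0} → (Fin (n + 1) → ZFSet.{0}) → Prop} (hR : UD R)
    (v : Fin n → ZFSet.{0}) {x : ZFSet.{0}} (hv : ∀ i, Dc X A (v i)) (hx : x ∈ X)
    (h : ∀ y ∈ X, R X (Fin.cons y v) ↔ y = x) : Dc X A x := by
  obtain ⟨φ, hφ⟩ := hR
  refine .step φ v x hv hx fun y hy => ?_
  rw [hφ X hX, h y hy]
  intro i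
  refine Fin.cases ?_ (fun i => ?_) i
  · exact hy
  · exact (hv i).mem hA

theorem Dc.of_d0 (hX : ∀ x ∈ X, ∀ y ∈ x, y ∈ X) (hA : A ⊆ X) {n : ℕ}
    {R : (Fin (n + 1) → ZFSet.{0}) → Prop} (hR : D0 R)
    (v : Fin n → ZFSet.{0}) {x : ZFSet.{0}} (hv : ∀ i, Dc X A (v i)) (hx : x ∈ X)
    (h : ∀ y ∈ X, R (Fin.cons y v) ↔ y = x) : Dc X A x :=
  Dc.of_ud hX hA (UD.d0 hR) v hv hx h

/-- Finite support. -/
theorem Dc.directed {I : Type*} [Nonempty I] {A : I → Set ZFSet.{0}}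
    (hd : ∀ i j, ∃ k, A i ⊆ A k ∧ A j ⊆ A k) {x : ZFSet.{0}} (h : Dc X (⋃ i, A i) x) :
    ∃ i, Dc X (A i) x := by
  induction h with
  | base h =>
    obtain ⟨i, hi⟩ := Set.mem_iUnion.1 h
    exact ⟨i, .base hi⟩
  | @step n φ v x hv hx h ih =>
    have key : ∀ (m : ℕ) (w : Fin m → ZFSet.{0}), (∀ i, ∃ j, Dc X (A j) (w i)) →
        ∃ k, ∀ i, Dc X (A k) (w i) := by
      intro m
      induction m with
      | zero =>
        intro w _
        exact ⟨Classical.arbitrary I, fun i => i.elim0⟩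
      | succ m ihm =>
        intro w hw
        obtain ⟨k, hk⟩ := ihm (fun i => w i.succ) fun i => hw i.succ
        obtain ⟨j, hj⟩ := hw 0
        obtain ⟨l, h1, h2⟩ := hd k j
        refine ⟨l, fun i => ?_⟩
        refine Fin.cases ?_ (fun i => ?_) i
        · exact hj.mono h2
        · exact (hk i).mono h1
    obtain ⟨k, hk⟩ := key n v ih
    exact ⟨k, .step φ v x hk hx h⟩

/-! ### The criterion of Tarski and Vaught -/

variable {lm : Fml Empty 2}

theorem Pr.wf (hP : Pr lm X) {P : ZFSet.{0} → Prop} (h : ∃ x ∈ X, P x) :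
    ∃ x ∈ X, P x ∧ ∀ y ∈ X, P y → ¬ Lt lm X y x := by
  obtain ⟨x0, hx0, hP0⟩ := h
  by_cases hex : ∃ y ∈ X, P y ∧ Lt lm X y x0
  · obtain ⟨f, hf, h1, h2⟩ := hP.rk x0 hx0
    set D : Set ZFSet.{0} := {o : ZFSet.{0} | o ∈ X ∧ ∃ z ∈ X, P z ∧ Lt lm X z x0 ∧ pair z o ∈ f}
      with hDdef
    have hne : D.Nonempty := by
      obtain ⟨y, hy, h3, h4⟩ := hex
      obtain ⟨o, ho, h5⟩ := h1 y hy h4
      exact ⟨o, ho, y, hy, h3, h4, h5⟩
    obtain ⟨ho, z, hz, h3, h4, h5⟩ := ZFSet.mem_wf.min_mem D hne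
    refine ⟨z, hz, h3, fun y hy hPy hlt => ?_⟩
    have h6 := hP.trn y hy z hz x0 hx0 hlt h4
    obtain ⟨o', ho', h7⟩ := h1 y hy h6
    have h8 := h2 z hz y hy _ ho o' ho' h5 h7 hlt
    exact ZFSet.mem_wf.not_lt_min D (show o' ∈ D from ⟨ho', y, hy, hPy, h6, h7⟩) h8
  · push Not at hex
    exact ⟨x0, hx0, hP0, hex⟩

theorem tv_dc (hX : ∀ x ∈ X, ∀ y ∈ x, y ∈ X) (hP : Pr lm X) (hA : A ⊆ X) :
    TV X {x | Dc X A x} := by
  refine ⟨fun x hx => Dc.mem hA hx, fun n R hR v hv h => ?_⟩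
  obtain ⟨φ, hφ⟩ := dfn_iff.1 hR
  have hvX : ∀ i, v i ∈ X := fun i => Dc.mem hA (hv i)
  have hc : ∀ a ∈ X, ∀ k, (Fin.cons a v : Fin (n + 1) → ZFSet.{0}) k ∈ X := by
    intro a ha k
    refine Fin.cases ?_ (fun k => ?_) k
    · exact ha
    · exact hvX k
  have hRφ : ∀ a ∈ X, (Sat X Empty.elim φ (Fin.cons a v) ↔ R a v) := by
    intro a ha
    rw [hφ _ (hc a ha)]
    rfl
  obtain ⟨y0, hy0, h1, h2⟩ := hP.wf (P := fun y => R y v) h
  refine ⟨y0, ?_, h1⟩
  have hU : UD fun M (w : Fin (n + 1) → ZFSet.{0}) => Sat M Empty.elim φ w ∧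
      ∀ z ∈ M, Sat M Empty.elim φ (Fin.cons z (Fin.tail w)) → ¬ Lt lm M z (w 0) := by
    refine (UD.fml φ).and ?_
    refine UD.all (Q := fun M z w => Sat M Empty.elim φ (Fin.cons z (Fin.tail w)) →
      ¬ Lt lm M z (w 0)) ?_
    refine UD.imp ?_ (UD.lt lm 0 1).not
    refine ((UD.fml φ).comp (Fin.cons 0 fun i => i.succ.succ)).congr fun M w => ?_
    have h : (fun i => w ((Fin.cons 0 fun i => i.succ.succ : Fin (n + 1) → Fin (n + 1 + 1)) i)) =
        Fin.cons (w 0) (Fin.tail (Fin.tail w)) := by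
      funext i
      refine Fin.cases ?_ (fun i => ?_) i
      · rfl
      · rfl
    rw [h]
  refine Dc.of_ud hX hA hU v hv hy0 fun y hy => ?_
  simp only [Fin.cons_zero, Fin.tail_cons]
  constructor
  · rintro ⟨h3, h4⟩
    rcases hP.tri y hy y0 hy0 with h5 | h5 | h5
    · exact absurd h5 (h2 y hy ((hRφ y hy).1 h3))
    · exact h5
    · exact absurd h5 (h4 y0 hy0 ((hRφ y0 hy0).2 h1))
  · rintro rfl
    exact ⟨(hRφ y hy).2 h1, fun z hz h3 => h2 z hz ((hRφ z hz).1 h3)⟩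

/-! ### Elementary substructures and collapses -/

theorem dc_sub_tv {N : Set ZFSet.{0}} (hN : TV X N) (hA : A ⊆ N) {x : ZFSet.{0}}
    (h : Dc X A x) : x ∈ N := by
  induction h with
  | base h => exact hA h
  | @step n φ v x hv hx h ih =>
    have hD : Dfn ∅ X fun w : Fin (n + 1) → ZFSet.{0} =>
        Sat X Empty.elim φ (Fin.cons (w 0) (Fin.tail w)) := by
      rw [dfn_iff]
      refine ⟨φ, fun w _ => ?_⟩
      rw [Fin.cons_self_tail]
    obtain ⟨b, hb, h2⟩ := hN.2 n (fun a v => Sat X Empty.elim φ (Fin.cons a v)) hD v ih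
      ⟨x, hx, (h x hx).2 rfl⟩
    rwa [(h b (hN.1 hb)).1 h2] at hb

theorem dc_tv {N : Set ZFSet.{0}} (hN : TV X N) (hA : A ⊆ N) {x : ZFSet.{0}} :
    Dc X A x ↔ Dc N A x := by
  have hc : ∀ {n : ℕ} {v : Fin n → ZFSet.{0}}, (∀ i, v i ∈ N) → ∀ a ∈ N, ∀ k,
      (Fin.cons a v : Fin (n + 1) → ZFSet.{0}) k ∈ N := by
    intro n v hv a ha k
    refine Fin.cases ?_ (fun k => ?_) k
    · exact ha
    · exact hv k
  constructor
  · intro h
    induction h with
    | base h => exact .base h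
    | @step n φ v x hv hx h ih =>
      have hvN : ∀ i, v i ∈ N := fun i => dc_sub_tv hN hA (hv i)
      have hxN : x ∈ N := dc_sub_tv hN hA (.step φ v x hv hx h)
      refine .step φ v x ih hxN fun y hy => ?_
      rw [hN.sat φ _ (hc hvN y hy)]
      exact h y (hN.1 hy)
  · intro h
    induction h with
    | base h => exact .base h
    | @step n φ v x hv hx h ih =>
      have hvN : ∀ i, v i ∈ N := fun i => Dc.mem hA (hv i)
      refine .step φ v x ih (hN.1 hx) fun y hy => ⟨fun h1 => ?_, ?_⟩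
      · by_contra hne
        have hD : Dfn ∅ X fun w : Fin (n + 1 + 1) → ZFSet.{0} =>
            Sat X Empty.elim φ (Fin.cons (w 0) (Fin.tail (Fin.tail w))) ∧ ¬ w 0 = w 1 := by
          rw [dfn_iff]
          obtain ⟨ψ, hψ⟩ := (((UD.fml φ).comp (Fin.cons 0 fun i => i.succ.succ :
            Fin (n + 1) → Fin (n + 1 + 1))).and
            (UD.fml (.neg (.eq (Sum.inl 0) (Sum.inl 1)) : Fml Empty (n + 1 + 1))))
          refine ⟨(φ.subst fun i => Sum.inl ((Fin.cons 0 fun i => i.succ.succ :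
            Fin (n + 1) → Fin (n + 1 + 1)) i)).and (.neg (.eq (Sum.inl 0) (Sum.inl 1))),
            fun w _ => ?_⟩
          simp only [Sat, sat_subst, Sum.elim_inl]
          have h : (fun i => w ((Fin.cons 0 fun i => i.succ.succ :
              Fin (n + 1) → Fin (n + 1 + 1)) i)) = Fin.cons (w 0) (Fin.tail (Fin.tail w)) := by
            funext i
            refine Fin.cases ?_ (fun i => ?_) i
            · rfl
            · rfl
          rw [h]
        obtain ⟨b, hb, h2, h3⟩ := hN.2 (n + 1)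
          (fun a v => Sat X Empty.elim φ (Fin.cons a (Fin.tail v)) ∧ ¬ a = v 0) hD
          (Fin.cons x v) (hc hvN x hx) ⟨y, hy, by rwa [Fin.tail_cons], hne⟩
        rw [Fin.tail_cons, ← hN.sat φ _ (hc hvN b hb)] at h2
        exact h3 ((h b hb).1 h2)
      · rintro rfl
        rw [← hN.sat φ _ (hc hvN y hx)]
        exact (h y hx).2 rfl

theorem dc_col {H : ZFSet.{0}} (hH : Xt H) (hA : A ⊆ {x | x ∈ H}) {z : ZFSet.{0}}
    (h : Dc {y | y ∈ im (col H) H} (col H '' A) z) : ∀ x ∈ H, z = col H x →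
      Dc {y | y ∈ H} A x := by
  have hA' : col H '' A ⊆ {y | y ∈ im (col H) H} := by
    rintro _ ⟨a, ha, rfl⟩
    exact mem_im.2 ⟨a, hA ha, rfl⟩
  induction h with
  | @base a h =>
    intro x hx hax
    obtain ⟨b, hb, rfl⟩ := h
    rw [← col_inj hH b (hA hb) x hx hax]
    exact .base hb
  | @step n φ v w hv hw h ih =>
    intro x hx hax
    have hvm : ∀ i, ∃ u ∈ H, v i = col H u := fun i => mem_im.1 (Dc.mem hA' (hv i))
    choose u hu hvu using hvm
    have hcu : ∀ a ∈ H, ∀ k, (Fin.cons a u : Fin (n + 1) → ZFSet.{0}) k ∈ H := by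
      intro a ha k
      refine Fin.cases ?_ (fun k => ?_) k
      · exact ha
      · exact hu k
    refine .step φ u x (fun i => ih i (u i) (hu i) (hvu i)) hx fun y hy => ?_
    have h1 := h (col H y) (mem_im.2 ⟨y, hy, rfl⟩)
    have h2 : (Fin.cons (col H y) v : Fin (n + 1) → ZFSet.{0}) =
        fun i => col H ((Fin.cons y u : Fin (n + 1) → ZFSet.{0}) i) := by
      funext i
      refine Fin.cases ?_ (fun i => ?_) i
      · rfl
      · exact hvu i
    rw [h2, sat_col hH φ _ (hcu y hy)] at h1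
    rw [h1, hax]
    exact ⟨fun h3 => col_inj hH _ hy _ hx h3, fun h3 => h3 ▸ rfl⟩

theorem dc_col' {H : ZFSet.{0}} (hH : Xt H) (hA : A ⊆ {x | x ∈ H}) {x : ZFSet.{0}}
    (h : Dc {y | y ∈ H} A x) : Dc {y | y ∈ im (col H) H} (col H '' A) (col H x) := by
  induction h with
  | base h => exact .base ⟨_, h, rfl⟩
  | @step n φ v x hv hx h ih =>
    have hu : ∀ i, v i ∈ H := fun i => Dc.mem hA (hv i)
    have hcu : ∀ a ∈ H, ∀ k, (Fin.cons a v : Fin (n + 1) → ZFSet.{0}) k ∈ H := by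
      intro a ha k
      refine Fin.cases ?_ (fun k => ?_) k
      · exact ha
      · exact hu k
    refine .step φ (fun i => col H (v i)) (col H x) ih (mem_im.2 ⟨x, hx, rfl⟩) fun z hz => ?_
    obtain ⟨y, hy, rfl⟩ := mem_im.1 hz
    have h2 : (Fin.cons (col H y) (fun i => col H (v i)) : Fin (n + 1) → ZFSet.{0}) =
        fun i => col H ((Fin.cons y v : Fin (n + 1) → ZFSet.{0}) i) := by
      funext i
      refine Fin.cases ?_ (fun i => ?_) i
      · rfl
      · rfl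
    rw [h2, sat_col hH φ _ (hcu y hy), h y hy]
    exact ⟨fun h3 => h3 ▸ rfl, fun h3 => col_inj hH _ hy _ hx h3⟩

/-- Definability in an element of `X`. -/
theorem dc_nest (hX : ∀ x ∈ X, ∀ y ∈ x, y ∈ X) (hB : B ⊆ X) {Y : ZFSet.{0}} (hY : Dc X B Y)
    (hA : ∀ a ∈ A, Dc X B a) {x : ZFSet.{0}} (h : Dc {y | y ∈ Y} A x) : Dc X B x := by
  induction h with
  | base h => exact hA _ h
  | @step n φ v x hv hx h ih =>
    have hD : D0 fun w : Fin (n + 1 + 1) → ZFSet.{0} => w 0 ∈ w 1 ∧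
        Sat {y | y ∈ w 1} Empty.elim φ (Fin.cons (w 0) (Fin.tail (Fin.tail w))) := by
      refine (D0.mem (D0v.proj 0) (D0v.proj 1)).and ?_
      refine ((D0.relSat φ).comp (Fin.cons 1 (Fin.cons 0 fun i => i.succ.succ))).congr
        fun w => ?_
      have h : (Fin.tail fun i => w ((Fin.cons 1 (Fin.cons 0 fun i => i.succ.succ) :
          Fin (n + 1 + 1) → Fin (n + 1 + 1)) i)) = Fin.cons (w 0) (Fin.tail (Fin.tail w)) := by
        funext i
        refine Fin.cases ?_ (fun i => ?_) i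
        · rfl
        · rfl
      rw [h]
      rfl
    have hYX := hY.mem hB
    refine Dc.of_d0 hX hB hD (Fin.cons Y v) (fun i => ?_) (hX _ hYX _ hx) fun y _ => ?_
    · refine Fin.cases ?_ (fun i => ?_) i
      · exact hY
      · exact ih i
    · have e0 : (Fin.cons y (Fin.cons Y v) : Fin (n + 1 + 1) → ZFSet.{0}) 1 = Y := rfl
      have e1 : Fin.tail (Fin.tail (Fin.cons y (Fin.cons Y v) : Fin (n + 1 + 1) → ZFSet.{0})) = v :=
        rfl
      rw [e0, e1]
      simp only [Fin.cons_zero]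
      constructor
      · rintro ⟨h1, h2⟩
        exact (h y h1).1 h2
      · rintro rfl
        exact ⟨hx, (h y hx).2 rfl⟩

/-! ### Cardinality -/

open Classical in
/-- The element defined by a formula. -/
noncomputable def dfv (X : Set ZFSet.{0}) {n : ℕ} (φ : Fml Empty (n + 1))
    (v : Fin n → ZFSet.{0}) : ZFSet.{0} :=
  if h : ∃ x, ∀ y ∈ X, Sat X Empty.elim φ (Fin.cons y v) ↔ y = x then h.choose else ∅

/-- The value of a term. -/
noncomputable def dcv (X : Set ZFSet.{0}) {α : Type} (g : α → ZFSet.{0}) :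
    WType (SkA α) → ZFSet.{0} :=
  WType.elim ZFSet.{0} fun p => match p with
    | ⟨Sum.inl a, _⟩ => g a
    | ⟨Sum.inr q, v⟩ => dfv X q.2 v

theorem dc_range {α : Type} (g : α → ZFSet.{0}) {x : ZFSet.{0}} (h : Dc X (Set.range g) x) :
    ∃ t, dcv X g t = x := by
  induction h with
  | base h =>
    obtain ⟨a, rfl⟩ := h
    exact ⟨WType.mk (Sum.inl a) Empty.elim, rfl⟩
  | @step n φ v x hv hx h ih =>
    choose t ht using ih
    refine ⟨WType.mk (Sum.inr ⟨n, φ⟩) t, ?_⟩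
    change dfv X φ (fun i => dcv X g (t i)) = _
    rw [funext ht]
    have h1 : ∃ x, ∀ y ∈ X, Sat X Empty.elim φ (Fin.cons y v) ↔ y = x := ⟨x, h⟩
    rw [dfv, dif_pos h1]
    exact ((h1.choose_spec x hx).1 ((h x hx).2 rfl)).symm

theorem mk_dc {α : Type} (g : α → ZFSet.{0}) {c : Cardinal.{0}} (hc : ℵ₀ ≤ c) (hα : #α ≤ c) :
    #{x | Dc X (Set.range g) x} ≤ Cardinal.lift.{1} c := by
  have h1 : {x | Dc X (Set.range g) x} ⊆ Set.range (dcv X g) := fun x hx => dc_range g hx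
  refine (Cardinal.mk_le_mk_of_subset h1).trans ?_
  have h2 : #(WType (SkA α)) ≤ c := by
    refine WType.cardinalMk_le_max_aleph0_of_finite.trans ?_
    refine max_le ?_ hc
    rw [Cardinal.mk_sum, Cardinal.lift_id, Cardinal.lift_id]
    refine (add_le_add hα (show #(Σ n : ℕ, Fml Empty (n + 1)) ≤ c from ?_)).trans
      (Cardinal.add_eq_self hc).le
    have : ∀ n, Countable (Fml Empty (n + 1)) := fun n =>
      Set.countable_univ_iff.1 (countable_fmlE (n + 1))
    exact (Cardinal.mk_le_aleph0).trans hc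
  have h3 := Cardinal.mk_range_le_lift (f := dcv X g)
  rw [Cardinal.lift_id'.{0, 1}] at h3
  exact h3.trans (Cardinal.lift_le.2 h2)

end Pool.Agent.W2helper55.HLM
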