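import Pool.Agent.W2helper55.HLM.Sz
import Pool.Agent.W2helper17.HLM.A
import Pool.Agent.W2helper55.HL.Exist

/-!
# Under `V = L` the Halpern-Lauchli property fails at all inaccessible cardinals
-/

set_option autoImplicit false

open Cardinal Ordinal Set

namespace Pool.Agent.W2helper55.HLM

open Pool.Agent.W868 Pool.Agent.R587
open Pool.Agent.H348R6.HLT
open Pool.Agent.W2helper55.HL

/-- The sequence of cardinals. -/
theorem exists_mu {κ : Cardinal.{0}} (hκ : κ.IsInaccessible) : ∃ μ, Mu κ μ := by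
  refine ⟨mu fun α => max ℵ₀ α.card, ⟨fun α => ?_, fun α hα => ?_, fun α => ?_, fun α α' h => ?_⟩⟩
  · exact (le_max_left _ _).trans (mu_mem _ α).1
  · exact mu_lt _ hκ (fun β hβ => max_lt hκ.aleph0_lt (Cardinal.lt_ord.1 hβ)) hα
  · exact (le_max_right _ _).trans (mu_mem _ α).1
  · exact (mu_mem _ α').2 α h

/-- Under `V = L`, `HL (d, σ, κ)` fails for all inaccessible `κ` if `d ≥ 2` and `σ ≥ ℵ₀`, and if
`d ≥ 3` and `σ ≥ 2`. -/
theorem main (hV : VL) (κ : Cardinal.{0}) (hκ : κ.IsInaccessible) (d : ℕ) (σ : Cardinal.{0})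
    (h : (2 ≤ d ∧ ℵ₀ ≤ σ) ∨ (3 ≤ d ∧ 2 ≤ σ)) : ¬ HL d σ κ := by
  obtain ⟨μ, hμ⟩ := exists_mu hκ
  obtain ⟨lm, hlm⟩ := exists_lm Pool.Agent.W4helper65.HLM.p_B hV hκ.aleph0_lt.le
  exact Pool.Agent.W2helper17.HLM.pieceA2 κ μ _ (sys hμ hκ.aleph0_lt.le hlm) hκ d σ h

end Pool.Agent.W2helper55.HLM

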