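import Pool.Agent.H348R6.HLSing

/-!
# A regular cardinal that has a regular tree is a strong limit
-/

set_option autoImplicit false

universe u

open Cardinal Ordinal Set

namespace Pool.Agent.W2helper55.HLM

open Pool.Agent.H348R6.HLT

variable {κ : Cardinal.{u}} {T : Set Node.{u}}

/-- Above every level there is a level where all nodes of the given level have split. -/
theorem exists_g (hκ : κ.IsRegular) (hT : IsRegularTree κ T) {α : Ordinal.{u}} (hα : α < κ.ord) :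
    ∃ β < κ.ord, ∀ t ∈ level T α, ∃ s₁ ∈ level T β, ∃ s₂ ∈ level T β, t ≤ s₁ ∧ t ≤ s₂ ∧
      s₁ ≠ s₂ := by
  have h1 : ∀ t : level T α, ∃ γ < κ.ord, ∃ s₁ ∈ T, ∃ s₂ ∈ T, t.1 ≤ s₁ ∧ t.1 ≤ s₂ ∧ ¬ s₁ ≤ s₂ ∧
      ¬ s₂ ≤ s₁ ∧ s₁.len ≤ γ ∧ s₂.len ≤ γ := by
    intro t
    obtain ⟨s₁, h1, s₂, h2, h3, h4, h5, h6⟩ := hT.split t.1 t.2.1
    exact ⟨max s₁.len s₂.len, max_lt (hT.len_lt _ h1) (hT.len_lt _ h2), s₁, h1, s₂, h2, h3, h4, h5,
      h6, le_max_left _ _, le_max_right _ _⟩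
  choose f hf using h1
  obtain ⟨β, hβ, h2⟩ := bdd_lift hκ f (hT.level_small α hα) fun t => (hf t).1
  refine ⟨β, hβ, fun t ht => ?_⟩
  obtain ⟨-, s₁, h3, s₂, h4, h5, h6, h7, h8, h9, h10⟩ := hf ⟨t, ht⟩
  obtain ⟨y₁, a1, a2, a3⟩ := exists_ext hT h3 hβ (h9.trans (h2 _))
  obtain ⟨y₂, b1, b2, b3⟩ := exists_ext hT h4 hβ (h10.trans (h2 _))
  refine ⟨y₁, ⟨a1, a2⟩, y₂, ⟨b1, b2⟩, h5.trans a3, h6.trans b3, ?_⟩
  rintro rfl
  rcases le_total s₁.len s₂.len with h | h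
  · exact h7 (le_of_len_le a3 b3 h)
  · exact h8 (le_of_len_le b3 a3 h)

/-- The recursive definition of the sequence of levels. -/
noncomputable def al (g : Ordinal.{u} → Ordinal.{u}) : Ordinal.{u} → Ordinal.{u} :=
  WellFounded.fix (wellFounded_lt (α := Ordinal.{u})) fun ξ ih =>
    sInf {c | ∀ i (h : i < ξ), g (ih i h) ≤ c}

section

variable (g : Ordinal.{u} → Ordinal.{u})

theorem al_eq (ξ : Ordinal.{u}) : al g ξ = sInf {c | ∀ i, i < ξ → g (al g i) ≤ c} := by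
  unfold al
  rw [WellFounded.fix_eq]

theorem le_al {i ξ : Ordinal.{u}} (h : i < ξ) : g (al g i) ≤ al g ξ := by
  have h1 : al g ξ ∈ {c | ∀ i, i < ξ → g (al g i) ≤ c} := by
    rw [al_eq]
    refine csInf_mem ?_
    obtain ⟨c, hc⟩ := Ordinal.bddAbove_of_small (s := Set.range fun i : Iio ξ => g (al g i.1))
    exact ⟨c, fun i hi => hc ⟨⟨i, hi⟩, rfl⟩⟩
  exact h1 i h

theorem lt_al {δ ξ : Ordinal.{u}} (h : δ < al g ξ) : ∃ i < ξ, δ < g (al g i) := by
  by_contra hc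
  push Not at hc
  rw [al_eq] at h
  exact absurd (csInf_le' (show δ ∈ {c | ∀ i, i < ξ → g (al g i) ≤ c} from hc)) (not_le.2 h)

theorem al_lt (hκ : κ.IsRegular) (hg : ∀ α < κ.ord, g α < κ.ord) {ξ : Ordinal.{u}}
    (hξ : ξ < κ.ord) : al g ξ < κ.ord := by
  induction ξ using WellFoundedLT.induction with
  | ind ξ IH =>
  obtain ⟨γ, hγ, h⟩ := bdd_lift hκ (fun i : Iio ξ => g (al g i.1)) (by
      rw [Cardinal.mk_Iio_ordinal, Cardinal.lift_lt]
      exact Cardinal.lt_ord.1 hξ) fun i => hg _ (IH i.1 i.2 (lt_trans i.2 hξ))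
  rw [al_eq]
  exact (csInf_le' (show γ ∈ {c | ∀ i, i < ξ → g (al g i) ≤ c} from
    fun i hi => h ⟨i, hi⟩)).trans_lt hγ

end

theorem cut_cut {t : Node.{u}} {α β : Ordinal.{u}} (h : β ≤ α) (hα : α ≤ t.len) :
    cut (cut t α) β = cut t β :=
  cut_mono (cut_le t α) (by rwa [cut_len hα])

theorem eq_of_fn {s t : Node.{u}} (h : s.len = t.len) (h' : ∀ δ < s.len, s.fn δ = t.fn δ) :
    s = t :=
  le_antisymm (le_def.2 ⟨h.le, h'⟩) (le_def.2 ⟨h.ge, fun δ hδ => (h' δ (h ▸ hδ)).symm⟩)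

/-- A regular cardinal that has a regular tree is a strong limit. -/
theorem strong_of_tree (hκ : κ.IsRegular) (hT : IsRegularTree κ T) : κ.IsStrongPrelimit := by
  classical
  intro l hl
  have h1 : ∀ α : Ordinal.{u}, ∃ β, α < κ.ord → β < κ.ord ∧ ∀ t ∈ level T α,
      ∃ s₁ ∈ level T β, ∃ s₂ ∈ level T β, t ≤ s₁ ∧ t ≤ s₂ ∧ s₁ ≠ s₂ := by
    intro α
    by_cases hα : α < κ.ord
    · obtain ⟨β, hβ, h⟩ := exists_g hκ hT hα
      exact ⟨β, fun _ => ⟨hβ, h⟩⟩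
    · exact ⟨0, fun h => absurd h hα⟩
  choose g hg using h1
  have h2 : ∀ t : Node.{u}, ∃ e : Bool → Node.{u}, t ∈ T → (∀ b, e b ∈ level T (g t.len) ∧
      t ≤ e b) ∧ e true ≠ e false := by
    intro t
    by_cases ht : t ∈ T
    · obtain ⟨s₁, h3, s₂, h4, h5, h6, h7⟩ := (hg t.len (hT.len_lt t ht)).2 t ⟨ht, rfl⟩
      refine ⟨fun b => if b then s₁ else s₂, fun _ => ⟨fun b => ?_, ?_⟩⟩
      · cases b
        · exact ⟨h4, h6⟩
        · exact ⟨h3, h5⟩
      · simpa using h7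
    · exact ⟨fun _ => t, fun h => absurd h ht⟩
  choose e he using h2
  have hinj : ∀ t ∈ T, ∀ a b, e t a = e t b → a = b := by
    intro t ht a b hab
    have h3 := (he t ht).2
    cases a <;> cases b
    · rfl
    · exact absurd hab.symm h3
    · exact absurd hab h3
    · rfl
  set A := al g with hA
  have hAκ : ∀ ξ < κ.ord, A ξ < κ.ord := fun ξ hξ =>
    al_lt g hκ (fun α hα => (hg α hα).1) hξ
  -- the nodes given by a sequence of choices
  let P : (Ordinal.{u} → Bool) → Ordinal.{u} → Node.{u} → Prop := fun σ ξ t =>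
    t ∈ level T (A ξ) ∧ ∀ η < ξ, A η ≤ t.len ∧ e (cut t (A η)) (σ η) ≤ t
  have hAmono : ∀ η ξ, η < ξ → ξ < κ.ord → A η ≤ A ξ := by
    intro η ξ hη hξ
    refine le_trans ?_ (le_al g hη)
    have h3 := hAκ η (hη.trans hξ)
    obtain ⟨t, ht⟩ := hT.level_nonempty _ h3
    have h4 := (he t ht.1).1 true
    have h5 := h4.2.1
    rwa [h4.1.2, ht.2] at h5
  have hcutP : ∀ σ ξ t, ξ < κ.ord → P σ ξ t → ∀ η < ξ, P σ η (cut t (A η)) := by
    intro σ ξ t hξ ht η hη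
    have h3 := (ht.2 η hη).1
    refine ⟨⟨hT.down t ht.1.1 _ (cut_le _ _), cut_len h3⟩, fun ζ hζ => ?_⟩
    have h4 := hAmono ζ η hζ (hη.trans hξ)
    rw [cut_len h3]
    refine ⟨h4, ?_⟩
    rw [cut_cut h4 h3]
    have h5 := (ht.2 ζ (hζ.trans hη)).2
    have h6 : cut t (A ζ) ∈ T := hT.down t ht.1.1 _ (cut_le _ _)
    refine le_cut h5 ?_
    rw [((he _ h6).1 _).1.2, cut_len (h4.trans h3)]
    exact le_al g hζ
  have huniq : ∀ σ ξ, ξ < κ.ord → ∀ t t', P σ ξ t → P σ ξ t' → t = t' := by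
    intro σ ξ
    induction ξ using WellFoundedLT.induction with
    | ind ξ IH =>
    intro hξ t t' ht ht'
    refine eq_of_fn (ht.1.2.trans ht'.1.2.symm) fun δ hδ => ?_
    rw [ht.1.2] at hδ
    obtain ⟨i, hi, hδi⟩ := lt_al g hδ
    have h3 := IH i hi (hi.trans hξ) _ _ (hcutP σ ξ t hξ ht i hi) (hcutP σ ξ t' hξ ht' i hi)
    have h4 := (ht.2 i hi).2
    have h5 := (ht'.2 i hi).2
    rw [← h3] at h5
    have h6 : cut t (A i) ∈ T := hT.down t ht.1.1 _ (cut_le _ _)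
    have h7 : δ < (e (cut t (A i)) (σ i)).len := by
      rw [((he _ h6).1 _).1.2, cut_len (ht.2 i hi).1]
      exact hδi
    rw [← h4.2 δ h7, ← h5.2 δ h7]
  have hexP : ∀ σ ξ, ξ < κ.ord → ∃ t, P σ ξ t := by
    intro σ ξ
    induction ξ using WellFoundedLT.induction with
    | ind ξ IH =>
    intro hξ
    have h3 : ∀ i : Iio ξ, ∃ t, P σ i.1 t := fun i => IH i.1 i.2 (lt_trans i.2 hξ)
    choose F hF using h3
    have hFT : ∀ i, F i ∈ T := fun i => (hF i).1.1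
    have hFl : ∀ i, (F i).len = A i.1 := fun i => (hF i).1.2
    have hcut : ∀ i j : Iio ξ, i.1 < j.1 → A i.1 ≤ (F j).len ∧ cut (F j) (A i.1) = F i := by
      intro i j hij
      have hj : j.1 < κ.ord := lt_trans j.2 hξ
      exact ⟨((hF j).2 i.1 hij).1, huniq σ i.1 (hij.trans hj) _ _ (hcutP σ j.1 _ hj (hF j) i.1 hij)
        (hF i)⟩
    have hstep : ∀ i j : Iio ξ, i.1 < j.1 → e (F i) (σ i.1) ≤ F j := by
      intro i j hij
      have h4 := ((hF j).2 i.1 hij).2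
      rwa [(hcut i j hij).2] at h4
    have hchain : IsChain (· ≤ ·) (Set.range fun i : Iio ξ => e (F i) (σ i.1)) := by
      rintro _ ⟨i, rfl⟩ _ ⟨j, rfl⟩ hne
      rcases lt_trichotomy i.1 j.1 with h | h | h
      · exact Or.inl ((hstep i j h).trans ((he _ (hFT j)).1 _).2)
      · have h5 : i = j := Subtype.ext h
        subst h5
        exact absurd rfl hne
      · exact Or.inr ((hstep j i h).trans ((he _ (hFT i)).1 _).2)
    obtain ⟨t, ht, htl, htb⟩ := exists_above hT (b := Set.range fun i : Iio ξ => e (F i) (σ i.1))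
      (by
        rintro _ ⟨i, rfl⟩
        exact ((he _ (hFT i)).1 _).1.1) hchain (hAκ ξ hξ) (by
        rintro _ ⟨i, rfl⟩
        change (e (F i) (σ i.1)).len ≤ A ξ
        rw [((he _ (hFT i)).1 _).1.2, hFl]
        exact le_al g i.2)
    refine ⟨t, ⟨ht, htl⟩, fun η hη => ?_⟩
    have h4 : A η ≤ t.len := by
      rw [htl]
      exact hAmono η ξ hη hξ
    have h5 := htb _ ⟨⟨η, hη⟩, rfl⟩
    have h6 : cut t (A η) = F ⟨η, hη⟩ := by
      refine eq_of_len_eq (cut_le _ _) (((he _ (hFT ⟨η, hη⟩)).1 (σ η)).2.trans h5) ?_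
      rw [cut_len h4, hFl]
    refine ⟨h4, ?_⟩
    rw [h6]
    exact h5
  -- the injection
  have hlκ : l.ord < κ.ord := Cardinal.ord_lt_ord.2 hl
  let ex : (Iio l.ord → Bool) → Ordinal.{u} → Bool := fun σ η =>
    if h : η < l.ord then σ ⟨η, h⟩ else false
  have h3 : ∀ σ : Iio l.ord → Bool, ∃ t, P (ex σ) l.ord t := fun σ => hexP _ _ hlκ
  choose F hF using h3
  have h4 : #(Iio l.ord → Bool) ≤ #(level T (A l.ord)) := by
    refine Cardinal.mk_le_of_injective (f := fun σ => (⟨F σ, (hF σ).1⟩ : level T (A l.ord))) ?_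
    intro σ σ' h
    have h5 : F σ = F σ' := congrArg Subtype.val h
    funext ⟨η, hη⟩
    have h6 := ((hF σ).2 η hη).2
    have h7 := ((hF σ').2 η hη).2
    rw [← h5] at h7
    have h8 : cut (F σ) (A η) ∈ T := hT.down _ (hF σ).1.1 _ (cut_le _ _)
    have h9 := hinj _ h8 _ _ (eq_of_len_eq h6 h7 (by
      rw [((he _ h8).1 _).1.2, ((he _ h8).1 _).1.2]))
    have hη' : η < l.ord := hη
    simp only [ex] at h9
    rw [dif_pos hη', dif_pos hη'] at h9
    exact h9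
  have h5 := h4.trans_lt (hT.level_small _ (hAκ _ hlκ))
  rw [Cardinal.mk_arrow, Cardinal.mk_Iio_ordinal, Cardinal.card_ord, Cardinal.mk_bool,
    Cardinal.lift_ofNat, Cardinal.lift_lift] at h5
  have h6 : Cardinal.lift.{u + 1} ((2 : Cardinal.{u}) ^ l) < Cardinal.lift.{u + 1} κ := by
    rw [Cardinal.lift_power, Cardinal.lift_ofNat]
    exact h5
  exact Cardinal.lift_lt.1 h6

end Pool.Agent.W2helper55.HLM
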