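import Pool.Agent.W2helper55.HLM.Fi
import Pool.Agent.W2helper55.HLM.St
import Pool.Agent.W2helper55.HL.VLGCH

/-!
# Under `V = L` the Halpern-Lauchli property fails wherever it is not vacuous
-/

set_option autoImplicit false

open Cardinal Ordinal Set

namespace Pool.Agent.W2helper55.HLM

open Pool.Agent.R587
open Pool.Agent.H348R6.HLT
open Pool.Agent.W2helper55.HL

theorem pow_cof_lt (hV : VL) {κ : Cardinal.{0}} (hκ : ℵ₀ ≤ κ) (hs : ¬ κ.IsRegular) :
    (2 : Cardinal.{0}) ^ κ.ord.cof < κ := by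
  have hμr : κ.ord.cof.IsRegular := Cardinal.isRegular_cof (Cardinal.isSuccLimit_ord hκ)
  have h1 : κ.ord.cof < κ := by
    rcases lt_or_ge κ.ord.cof κ with h | h
    · exact h
    · exact absurd ⟨hκ, h⟩ hs
  rw [gch_of_VL hV _ hμr.aleph0_le]
  refine lt_of_le_of_ne (Order.succ_le_of_lt h1) fun h => hs ?_
  rw [← h]
  exact Cardinal.isRegular_succ hμr.aleph0_le

theorem exists_tree_inacc {κ : Cardinal.{0}} (hκ : κ.IsInaccessible) :
    ∃ T : Set Node.{0}, IsRegularTree κ T := by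
  refine ⟨fat κ fun _ => 2, fat_regular hκ (fun β _ => ?_) (fun _ => one_lt_two) fun β hβ => ?_⟩
  · have h1 : ((2 : ℕ) : Ordinal.{0}) < ω := Ordinal.natCast_lt_omega0 2
    have h2 : ω ≤ κ.ord := by
      rw [← Cardinal.ord_aleph0]
      exact Cardinal.ord_le_ord.2 hκ.aleph0_lt.le
    exact (by simpa using h1 : (2 : Ordinal.{0}) < ω).trans_le h2
  · refine ⟨max ℵ₀ β.card, max_lt hκ.aleph0_lt (Cardinal.lt_ord.1 hβ), le_max_left _ _,
      le_max_right _ _, fun δ _ => ?_⟩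
    have h1 : ((2 : ℕ) : Ordinal.{0}) < ω := Ordinal.natCast_lt_omega0 2
    have h2 : ω ≤ (max ℵ₀ β.card).ord := by
      rw [← Cardinal.ord_aleph0]
      exact Cardinal.ord_le_ord.2 (le_max_left _ _)
    exact ((by simpa using h1 : (2 : Ordinal.{0}) < ω).trans_le h2).le

/-- Under `V = L`, for uncountable `κ` there is a regular `κ`-tree iff `κ` is singular or
inaccessible. -/
theorem exists_tree_iff (hV : VL) {κ : Cardinal.{0}} (hκ : ℵ₀ < κ) :
    (∃ T : Set Node.{0}, IsRegularTree κ T) ↔ (κ.IsRegular → κ.IsInaccessible) := by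
  constructor
  · rintro ⟨T, hT⟩ hr
    exact ⟨hκ, hr.2, strong_of_tree hr hT⟩
  · intro h
    by_cases hr : κ.IsRegular
    · exact exists_tree_inacc (h hr)
    · obtain ⟨b, hb1, _, hb3⟩ := exists_seq κ
      exact ⟨_, tree_regular hκ.le (pow_cof_lt hV hκ.le hr) hb1 hb3⟩

/-- Under `V = L`, for uncountable `κ`, `HL (d, σ, κ)` fails whenever there is a regular `κ`-tree,
that is, whenever `κ` is singular or inaccessible. -/
theorem main' (hV : VL) (κ : Cardinal.{0}) (hκ : ℵ₀ < κ) (d : ℕ) (σ : Cardinal.{0})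
    (h : (2 ≤ d ∧ ℵ₀ ≤ σ) ∨ (3 ≤ d ∧ 2 ≤ σ)) :
    (¬ HL d σ κ ↔ ∃ T : Set Node.{0}, IsRegularTree κ T) ∧
    (¬ HL d σ κ ↔ (κ.IsRegular → κ.IsInaccessible)) := by
  have hd : 0 < d := by
    rcases h with h | h
    · exact lt_of_lt_of_le (by norm_num) h.1
    · exact lt_of_lt_of_le (by norm_num) h.1
  have hσ : 2 ≤ σ := by
    rcases h with h | h
    · exact (Cardinal.natCast_lt_aleph0 (n := 2)).le.trans h.2
    · exact h.2
  have key : ¬ HL d σ κ ↔ ∃ T : Set Node.{0}, IsRegularTree κ T := by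
    constructor
    · intro h1
      by_contra hno
      exact h1 fun T hT => absurd ⟨T ⟨0, hd⟩, hT _⟩ hno
    · intro hT
      by_cases hr : κ.IsRegular
      · exact main hV κ ((exists_tree_iff hV hκ).1 hT hr) d σ h
      · exact not_HL_singular hκ.le (pow_cof_lt hV hκ.le hr) hd hσ
  exact ⟨key, key.trans (exists_tree_iff hV hκ)⟩

end Pool.Agent.W2helper55.HLM

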