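import Pool.Agent.W2helper55.HLM.Dc
import Pool.Agent.R587.LInst

/-!
# The least level that contains a set
-/

set_option autoImplicit false

namespace Pool.Agent.W2helper55.HLM

open Pool.Agent.W868 Pool.Agent.R587
open ZFSet (pair)
open Cardinal

variable {lm : Fml Empty 2}

theorem TVext {M X : Set ZFSet.{0}} (hM : ∀ x ∈ M, ∀ y ∈ x, y ∈ M) (hX : TV M X)
    {x y : ZFSet.{0}} (hx : x ∈ X) (hy : y ∈ X) (h : ∀ z ∈ X, z ∈ x ↔ z ∈ y) : x = y := by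
  by_contra hne
  obtain ⟨z, hz⟩ : ∃ z, ¬ (z ∈ x ↔ z ∈ y) := by
    by_contra h2
    push Not at h2
    exact hne (ZFSet.ext h2)
  have hd : Dfn ∅ M fun w : Fin 3 → ZFSet.{0} => ¬ (w 0 ∈ w 1 ↔ w 0 ∈ w 2) :=
    (Dfn.iff (Dfn.mem (DfnF.proj 0) (DfnF.proj 1)) (Dfn.mem (DfnF.proj 0) (DfnF.proj 2))).not
  have hzM : z ∈ M := by
    by_cases h1 : z ∈ x
    · exact hM _ (hX.1 hx) _ h1
    · by_cases h2 : z ∈ y
      · exact hM _ (hX.1 hy) _ h2
      · exact absurd (iff_of_false h1 h2) hz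
  obtain ⟨u, hu, h1⟩ := hX.2 2 (fun a v => ¬ (a ∈ v 0 ↔ a ∈ v 1)) hd ![x, y] (by
    intro i
    fin_cases i
    · exact hx
    · exact hy) ⟨z, hzM, hz⟩
  exact h1 (h u hu)

/-- The structures. -/
structure Gd (lm : Fml Empty 2) (X : ZFSet.{0}) : Prop where
  trans : ∀ x ∈ X, ∀ y ∈ x, y ∈ X
  pr : Pr lm {x | x ∈ X}

/-- `Y` is the least structure that contains `u`. -/
def IsB (lm : Fml Empty 2) (Y u : ZFSet.{0}) : Prop :=
  Gd lm Y ∧ u ∈ Y ∧ ∀ Z ∈ Y, Gd lm Z → u ∉ Z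

theorem d0_Gd (lm : Fml Empty 2) : D0 fun v : Fin 1 → ZFSet.{0} => Gd lm (v 0) := by
  obtain ⟨τ, hτ⟩ := ud_Pr lm
  refine ((D0.isTransitive (D0v.proj 0)).and (D0.relSat τ)).congr fun v => ?_
  constructor
  · rintro ⟨h1, h2⟩
    exact ⟨fun x hx y hy => h1 x hx hy,
      (hτ {x | x ∈ v 0} (fun x hx y hy => h1 x hx hy) _ fun i => i.elim0).1 h2⟩
  · intro h
    exact ⟨fun x hx y hy => h.trans x hx y hy,
      (hτ {x | x ∈ v 0} h.trans _ fun i => i.elim0).2 h.pr⟩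

theorem d0_IsB (lm : Fml Empty 2) : D0 fun v : Fin 2 → ZFSet.{0} => IsB lm (v 0) (v 1) := by
  refine ((d0_Gd lm).comp ![0]).and ((D0.mem (D0v.proj 1) (D0v.proj 0)).and ?_)
  refine D0.ball (Q := fun Z v => Gd lm Z → v 1 ∉ Z) (D0v.proj 0) ?_
  exact ((d0_Gd lm).comp ![0]).imp (D0.mem (D0v.proj 2) (D0v.proj 0)).not

theorem Gd.lev {X : ZFSet.{0}} (h : Gd lm X) : X = Lv ∅ (onn X) :=
  lev_of_psi h.trans h.pr.psi

theorem Gd.tri {X Y : ZFSet.{0}} (h : Gd lm X) (h' : Gd lm Y) : X = Y ∨ X ∈ Y ∨ Y ∈ X := by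
  have h1 := isOrdinal_onn h.trans
  have h2 := isOrdinal_onn h'.trans
  rcases h1.mem_trichotomous h2 with h3 | h3 | h3
  · right; left
    rw [h.lev, h'.lev]
    exact Pool.Agent.W868.Lv_mem h3
  · left
    rw [h.lev, h'.lev, h3]
  · right; right
    rw [h.lev, h'.lev]
    exact Pool.Agent.W868.Lv_mem h3

theorem IsB.sub {X Y u : ZFSet.{0}} (h : IsB lm Y u) (hX : Gd lm X) (hu : u ∈ X) :
    Y = X ∨ Y ∈ X := by
  rcases h.1.tri hX with h1 | h1 | h1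
  · exact Or.inl h1
  · exact Or.inr h1
  · exact absurd hu (h.2.2 X h1 hX)

theorem IsB.uniq {X Y u : ZFSet.{0}} (h : IsB lm Y u) (h' : IsB lm X u) : Y = X := by
  rcases h.sub h'.1 h'.2.1 with h1 | h1
  · exact h1
  · exact absurd h.2.1 (h'.2.2 Y h1 h.1)

theorem exists_B {u : ZFSet.{0}} (h : ∃ X, Gd lm X ∧ u ∈ X) : ∃ Y, IsB lm Y u := by
  have hne : {X : ZFSet.{0} | Gd lm X ∧ u ∈ X}.Nonempty := h
  refine ⟨ZFSet.mem_wf.min _ hne, (ZFSet.mem_wf.min_mem _ hne).1, (ZFSet.mem_wf.min_mem _ hne).2,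
    fun Z hZ h1 h2 => ?_⟩
  exact ZFSet.mem_wf.not_lt_min {X : ZFSet.{0} | Gd lm X ∧ u ∈ X} (show Z ∈ _ from ⟨h1, h2⟩) hZ

section

variable {X : ZFSet.{0}} (hX : Gd lm X) {A : Set ZFSet.{0}} (hA : A ⊆ {x | x ∈ X})

include hX hA

/-- Definability in the least structure. -/
theorem dc_B {Y u : ZFSet.{0}} (hY : IsB lm Y u) (hu : Dc {x | x ∈ X} A u)
    {C : Set ZFSet.{0}} (hC : ∀ a ∈ C, Dc {x | x ∈ X} A a) {x : ZFSet.{0}}
    (hx : Dc {y | y ∈ Y} C x) : Dc {y | y ∈ X} A x := by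
  rcases hY.sub hX (hu.mem hA) with h | h
  · subst h
    exact hx.trans' hC
  · refine dc_nest hX.trans hA (Y := Y) ?_ hC hx
    refine Dc.of_d0 hX.trans hA (d0_IsB lm) ![u] (fun i => ?_) h fun y _ => ?_
    · fin_cases i
      exact hu
    · exact ⟨fun h1 => IsB.uniq h1 hY, fun h1 => h1 ▸ hY⟩

theorem dc_upair {x y : ZFSet.{0}} (hx : Dc {x | x ∈ X} A x) (hy : Dc {x | x ∈ X} A y) :
    Dc {x | x ∈ X} A {x, y} := by
  have hD : D0 fun w : Fin 3 → ZFSet.{0} => w 1 ∈ w 0 ∧ w 2 ∈ w 0 ∧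
      ∀ x ∈ w 0, x = w 1 ∨ x = w 2 := by
    refine (D0.mem (D0v.proj _) (D0v.proj _)).and ((D0.mem (D0v.proj _) (D0v.proj _)).and ?_)
    refine D0.ball (Q := fun x w => x = w 1 ∨ x = w 2) (D0v.proj 0) ?_
    exact (D0.eq (D0v.proj _) (D0v.proj 2)).or (D0.eq (D0v.proj _) (D0v.proj 3))
  have hm : ({x, y} : ZFSet.{0}) ∈ X := by
    obtain ⟨z, hz, h⟩ := hX.pr.pairing x (hx.mem hA) y (hy.mem hA)
    exact h ▸ hz
  refine Dc.of_d0 hX.trans hA hD ![x, y] (fun i => ?_) hm fun z _ => ?_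
  · fin_cases i
    · exact hx
    · exact hy
  · change (x ∈ z ∧ y ∈ z ∧ ∀ u ∈ z, u = x ∨ u = y) ↔ z = {x, y}
    constructor
    · rintro ⟨h1, h2, h3⟩
      ext u
      rw [ZFSet.mem_pair]
      exact ⟨fun hu => h3 u hu, fun hu => hu.elim (fun h => h ▸ h1) (fun h => h ▸ h2)⟩
    · rintro rfl
      simp

theorem dc_pair {x y : ZFSet.{0}} (hx : Dc {x | x ∈ X} A x) (hy : Dc {x | x ∈ X} A y) :
    Dc {x | x ∈ X} A (pair x y) := by
  have h1 := dc_upair hX hA hx hx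
  rw [ZFSet.pair_eq_singleton] at h1
  exact dc_upair hX hA h1 (dc_upair hX hA hx hy)

theorem dc_fst {x y : ZFSet.{0}} (h : Dc {x | x ∈ X} A (pair x y)) : Dc {x | x ∈ X} A x := by
  have hD : D0 fun w : Fin 2 → ZFSet.{0} => ∃ a b, w 1 = pair a b ∧ a = w 0 :=
    D0.expair (Q := fun a _ w => a = w 0) (D0v.proj 1) (D0.eq (D0v.proj _) (D0v.proj _))
  have hm : x ∈ X := by
    have h1 : ({x} : ZFSet.{0}) ∈ X := hX.trans _ (h.mem hA) _ (by simp [ZFSet.pair])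
    exact hX.trans _ h1 _ (by simp)
  refine Dc.of_d0 hX.trans hA hD ![pair x y] (fun i => ?_) hm fun z _ => ?_
  · fin_cases i
    exact h
  · change (∃ a b, pair x y = pair a b ∧ a = z) ↔ z = x
    constructor
    · rintro ⟨a, b, h1, rfl⟩
      exact (ZFSet.pair_inj.1 h1).1.symm
    · rintro rfl
      exact ⟨z, y, rfl, rfl⟩

theorem dc_snd {x y : ZFSet.{0}} (h : Dc {x | x ∈ X} A (pair x y)) : Dc {x | x ∈ X} A y := by
  have hD : D0 fun w : Fin 2 → ZFSet.{0} => ∃ a b, w 1 = pair a b ∧ b = w 0 :=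
    D0.expair (Q := fun _ b w => b = w 0) (D0v.proj 1) (D0.eq (D0v.proj _) (D0v.proj _))
  have hm : y ∈ X := by
    have h1 : ({x, y} : ZFSet.{0}) ∈ X := hX.trans _ (h.mem hA) _ (by simp [ZFSet.pair])
    exact hX.trans _ h1 _ (by simp)
  refine Dc.of_d0 hX.trans hA hD ![pair x y] (fun i => ?_) hm fun z _ => ?_
  · fin_cases i
    exact h
  · change (∃ a b, pair x y = pair a b ∧ b = z) ↔ z = y
    constructor
    · rintro ⟨a, b, h1, rfl⟩
      exact (ZFSet.pair_inj.1 h1).2.symm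
    · rintro rfl
      exact ⟨x, z, rfl, rfl⟩

theorem dc_app {f a b : ZFSet.{0}} (hf : Dc {x | x ∈ X} A f) (ha : Dc {x | x ∈ X} A a)
    (h : pair a b ∈ f) (hu : ∀ b', pair a b' ∈ f → b' = b) : Dc {x | x ∈ X} A b := by
  have hD : D0 fun w : Fin 3 → ZFSet.{0} => pair (w 2) (w 0) ∈ w 1 :=
    D0.pairMem (D0v.proj 2) (D0v.proj 0) (D0v.proj 1)
  have hm : b ∈ X := by
    have h1 : ({a, b} : ZFSet.{0}) ∈ X :=
      hX.trans _ (hX.trans _ (hf.mem hA) _ h) _ (by simp [ZFSet.pair])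
    exact hX.trans _ h1 _ (by simp)
  refine Dc.of_d0 hX.trans hA hD ![f, a] (fun i => ?_) hm fun z _ => ?_
  · fin_cases i
    · exact hf
    · exact ha
  · change pair a z ∈ f ↔ z = b
    exact ⟨fun h1 => hu z h1, fun h1 => h1 ▸ h⟩

theorem dc_rst {f ν : ZFSet.{0}} (hf : Dc {x | x ∈ X} A f) (hν : Dc {x | x ∈ X} A ν) :
    ∃ u, Dc {x | x ∈ X} A u ∧ Rst f ν u := by
  obtain ⟨u, hu, h⟩ := hX.pr.rst f (hf.mem hA) ν (hν.mem hA)
  refine ⟨u, ?_, h⟩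
  refine Dc.of_d0 hX.trans hA (d0_Rst.comp ![1, 2, 0]) ![f, ν] (fun i => ?_) hu fun z _ => ?_
  · fin_cases i
    · exact hf
    · exact hν
  · change Rst f ν z ↔ z = u
    constructor
    · rintro h1
      ext p
      constructor
      · intro hp
        exact h.2 p (h1.1 p hp).1 (h1.1 p hp).2
      · intro hp
        exact h1.2 p (h.1 p hp).1 (h.1 p hp).2
    · rintro rfl
      exact h

end

/-! ### The collapse of a hull -/

/-- The hull as a set. -/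
noncomputable def Hz (X : ZFSet.{0}) (A : Set ZFSet.{0}) : ZFSet.{0} :=
  ZFSet.sep (fun x => Dc {y | y ∈ X} A x) X

theorem colfix {N x : ZFSet.{0}} (h : ∀ u ∈ x, u ∈ N ∧ col N u = u) : col N x = x := by
  ext y
  rw [mem_col]
  constructor
  · rintro ⟨u, hu, -, rfl⟩
    rwa [(h u hu).2]
  · intro hy
    exact ⟨y, hy, (h y hy).1, (h y hy).2.symm⟩

theorem rank_col_le (N x : ZFSet.{0}) : (col N x).rank ≤ x.rank := by
  induction x using ZFSet.inductionOn with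
  | _ x ih =>
  rw [ZFSet.rank_le_iff]
  intro y hy
  obtain ⟨u, hu, -, rfl⟩ := mem_col.1 hy
  exact (ih u hu).trans_lt (ZFSet.rank_lt_of_mem hu)

section

variable {X : ZFSet.{0}} (hX : Gd lm X) {A : Set ZFSet.{0}} (hA : A ⊆ {x | x ∈ X})

include hX hA

theorem mem_Hz {x : ZFSet.{0}} : x ∈ Hz X A ↔ Dc {y | y ∈ X} A x := by
  rw [Hz, ZFSet.mem_sep]
  exact ⟨fun h => h.2, fun h => ⟨h.mem hA, h⟩⟩

theorem tv_Hz : TV {x | x ∈ X} {x | x ∈ Hz X A} := by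
  have h : {x | x ∈ Hz X A} = {x | Dc {y | y ∈ X} A x} := by
    ext x
    exact mem_Hz hX hA
  rw [h]
  exact tv_dc hX.trans hX.pr hA

theorem xt_Hz : Xt (Hz X A) := fun _ hx _ hy h =>
  TVext hX.trans (tv_Hz hX hA) hx hy h

theorem gd_col : Gd lm (im (col (Hz X A)) (Hz X A)) := by
  refine ⟨col_trans, ?_⟩
  obtain ⟨τ, hτ⟩ := ud_Pr lm
  have h1 := (hτ {x | x ∈ X} hX.trans Fin.elim0 fun i => i.elim0).2 hX.pr
  have h2 := ((tv_Hz hX hA).sat τ Fin.elim0 fun i => i.elim0).2 h1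
  have h3 := (sat_col (xt_Hz hX hA) τ Fin.elim0 fun i => i.elim0).2 h2
  exact (hτ {x | x ∈ im (col (Hz X A)) (Hz X A)} col_trans _ fun i => i.elim0).1 h3

theorem col_pair' {x y : ZFSet.{0}} (hx : x ∈ Hz X A) (hy : y ∈ Hz X A) :
    col (Hz X A) (pair x y) = pair (col (Hz X A) x) (col (Hz X A) y) := by
  have hx' := (mem_Hz hX hA).1 hx
  have hy' := (mem_Hz hX hA).1 hy
  have h1 : ({x} : ZFSet.{0}) ∈ Hz X A := by
    have := (mem_Hz hX hA).2 (dc_upair hX hA hx' hx')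
    rwa [ZFSet.pair_eq_singleton] at this
  have h2 : ({x, y} : ZFSet.{0}) ∈ Hz X A := (mem_Hz hX hA).2 (dc_upair hX hA hx' hy')
  have h3 : col (Hz X A) {x} = {col (Hz X A) x} := by
    have := col_upair (K := Hz X A) hx hx
    rwa [ZFSet.pair_eq_singleton, ZFSet.pair_eq_singleton] at this
  rw [pair, col_upair h1 h2, h3, col_upair hx hy, pair]

end

/-- The least structure that contains `u` is the hull of `A` if the collapse fixes `A` and `u`. -/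
theorem IsB.gen {X u : ZFSet.{0}} (h : IsB lm X u) {A : Set ZFSet.{0}} (hA : A ⊆ {x | x ∈ X})
    (hu : u ∈ A) (hfix : ∀ a ∈ A, col (Hz X A) a = a) : ∀ z ∈ X, Dc {x | x ∈ X} A z := by
  have hX := h.1
  have huN : u ∈ Hz X A := (mem_Hz hX hA).2 (.base hu)
  have h1 : u ∈ im (col (Hz X A)) (Hz X A) := mem_im.2 ⟨u, huN, (hfix u hu).symm⟩
  have hXe : X = im (col (Hz X A)) (Hz X A) := by
    rcases h.sub (gd_col hX hA) h1 with h2 | h2
    · exact h2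
    · exfalso
      obtain ⟨y, hy, h3⟩ := mem_im.1 h2
      have hyX : y ∈ X := ((mem_Hz hX hA).1 hy).mem hA
      have h4 : (col (Hz X A) y).rank ≤ y.rank := rank_col_le _ _
      rw [← h3] at h4
      exact absurd (ZFSet.rank_lt_of_mem hyX) (not_lt.2 h4)
  intro z hz
  have hz' : z ∈ im (col (Hz X A)) (Hz X A) := hXe ▸ hz
  obtain ⟨y, hy, rfl⟩ := mem_im.1 hz'
  have h5 := (dc_tv (tv_Hz hX hA) (fun a ha => (mem_Hz hX hA).2 (.base ha))).1
    ((mem_Hz hX hA).1 hy)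
  have h6 := dc_col' (xt_Hz hX hA) (fun a ha => (mem_Hz hX hA).2 (.base ha)) h5
  have h7 : col (Hz X A) '' A = A := by
    ext a
    constructor
    · rintro ⟨b, hb, rfl⟩
      rwa [hfix b hb]
    · intro ha
      exact ⟨a, ha, hfix a ha⟩
  rw [h7, ← hXe] at h6
  exact h6

end Pool.Agent.W2helper55.HLM
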