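import Pool.Agent.W2helper55.HL.Final
import Pool.Agent.R587.VL
import Pool.Agent.R587.LInst

/-!
# Project HLM (MP_667be6_lc): under `V = L` the Halpern-Lauchli property fails at every inaccessible
cardinal.  Statements of the pieces.
-/

set_option autoImplicit false

universe u

open Cardinal Ordinal Set

namespace Pool.Agent.W2helper55.HLM

open Pool.Agent.H348R6.HLT
open Pool.Agent.W2helper55.HL

/-- A system of slaloms for the tree `fat κ (br μ)`. -/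
structure Sys (κ : Cardinal.{u}) (μ : Ordinal.{u} → Cardinal.{u})
    (S : Ordinal.{u} → Node.{u} → Set Ordinal.{u}) : Prop where
  inf : ∀ α, ℵ₀ ≤ μ α
  lt : ∀ α < κ.ord, μ α < κ
  card : ∀ α, α.card ≤ μ α
  grow : ∀ α α', α < α' → Order.succ (2 ^ μ α) ≤ μ α'
  small : ∀ α t, #(S α t) ≤ Cardinal.lift.{u + 1} (μ α)
  cap : ∀ β < κ.ord, Order.IsSuccLimit β → ∀ s ∈ level (fat κ (br μ)) β,
    ∀ t ∈ level (fat κ (br μ)) β, ∃ m < β, ∀ α, m ≤ α → α < β → s.fn α ∈ S α t ∨ t.fn α ∈ S α s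
  good : ∀ β < κ.ord, Order.IsSuccLimit β → ∀ ε < β, Order.IsSuccLimit ε →
    ∀ t ∈ level (fat κ (br μ)) β, ∃ a < ε, ∀ α, a ≤ α → α < ε → S α (cut t ε) ⊆ S α t

/-- PIECE A1. -/
def PieceA1 : Prop := ∀ (κ : Cardinal.{u}) (μ : Ordinal.{u} → Cardinal.{u})
    (S : Ordinal.{u} → Node.{u} → Set Ordinal.{u}), Sys κ μ S → ∀ wt : Ordinal.{u} → Ordinal.{u} → ℕ,
    ∃ c : Ordinal.{u} → Node.{u} → Node.{u} → ℕ, ∀ α β, α < β → β < κ.ord →
      ∀ s t : Ordinal.{u} → Node.{u},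
      (∀ x ∈ Iio (br μ α), s x ∈ fat κ (br μ) ∧ β ≤ (s x).len ∧ (s x).fn α = x) →
      (∀ x ∈ Iio (br μ α), t x ∈ fat κ (br μ) ∧ β ≤ (t x).len ∧ (t x).fn α = x) →
      Sparse (Cardinal.lift.{u + 1} (μ α)) (Iio (br μ α))
        (fun x y => c β (s x) (t y) < max (wt α x) (wt α y))

/-- PIECE A2. -/
def PieceA2 : Prop := ∀ (κ : Cardinal.{u}) (μ : Ordinal.{u} → Cardinal.{u})
    (S : Ordinal.{u} → Node.{u} → Set Ordinal.{u}), Sys κ μ S → κ.IsInaccessible →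
    ∀ d : ℕ, ∀ σ : Cardinal.{u}, (2 ≤ d ∧ ℵ₀ ≤ σ) ∨ (3 ≤ d ∧ 2 ≤ σ) → ¬ HL d σ κ

end Pool.Agent.W2helper55.HLM

namespace Pool.Agent.W2helper55.HLM

open Pool.Agent.W868 Pool.Agent.R587
open ZFSet (pair)

/-- PIECE B: the canonical well-ordering `ltc M` of the class `M` is transitive, and every initial
segment of it has a rank function in `M`. -/
def PieceB : Prop := ∀ (c : Cardinal.{0}) (M : Set ZFSet.{0}), LCls c M →
    (∀ x ∈ M, ∀ y ∈ M, ∀ z ∈ M, ltc M x y → ltc M y z → ltc M x z) ∧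
    ∀ y ∈ M, ∃ f ∈ M, (∀ z ∈ M, ltc M z y → ∃ o ∈ M, pair z o ∈ f) ∧
      ∀ z ∈ M, ∀ z' ∈ M, ∀ o ∈ M, ∀ o' ∈ M, pair z o ∈ f → pair z' o' ∈ f → ltc M z' z → o' ∈ o

end Pool.Agent.W2helper55.HLM
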