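import Pool.Agent.W2helper55.HLM.Lo
import Pool.Agent.W2helper55.HLM.Stm

/-!
# The structures exist
-/

set_option autoImplicit false

namespace Pool.Agent.W2helper55.HLM

open Pool.Agent.W868 Pool.Agent.R587
open ZFSet (pair)
open Cardinal

variable {lm : Fml Empty 2} {c : Cardinal.{0}} {M : Set ZFSet.{0}}

theorem pr_M (hB : PieceB) (hL : LCls c M)
    (hlm : ∀ x ∈ M, ∀ y ∈ M, Lt lm M x y ↔ ltc M x y) : Pr lm M := by
  have hM := hL.full
  obtain ⟨h1, h2⟩ := hB c M hL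
  refine ⟨fun x hx y hy => ⟨_, ?_, rfl⟩, hL.psi, ?_, ?_, ?_, ?_, ?_⟩
  · exact hM.insert_mem hx (hM.insert_mem hy hM.empty_mem)
  · intro x hx y hy
    rw [hlm x hx y hy, hlm y hy x hx]
    exact hL.wo.tri x hx y hy
  · intro x hx y hy z hz h3 h4
    rw [hlm x hx y hy] at h3
    rw [hlm y hy z hz] at h4
    rw [hlm x hx z hz]
    exact h1 x hx y hy z hz h3 h4
  · intro y hy
    obtain ⟨f, hf, h3, h4⟩ := h2 y hy
    refine ⟨f, hf, fun z hz h5 => h3 z hz ((hlm z hz y hy).1 h5), ?_⟩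
    intro z hz z' hz' o ho o' ho' h5 h6 h7
    exact h4 z hz z' hz' o ho o' ho' h5 h6 ((hlm z' hz' z hz).1 h7)
  · intro t ht ν hν
    refine ⟨ZFSet.sep (fun p => ∃ a b, p = pair a b ∧ a ∈ ν) t, hM.sep_mem ht, ?_, ?_⟩
    · intro p hp
      exact ZFSet.mem_sep.1 hp
    · intro p hp h
      exact ZFSet.mem_sep.2 ⟨hp, h⟩
  · exact ⟨∅, hM.empty_mem, rfl⟩

theorem exists_gd (hL : LCls c M) (hP : Pr lm M) {q T : ZFSet.{0}} (hq : q ∈ T)
    (hT : ∀ y ∈ T, ∀ z ∈ y, z ∈ T) (hTc : T.card ≤ c) : ∃ X, Gd lm X ∧ q ∈ X := by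
  have hM := hL.full
  have hTM := hh_of_trans hM hT hTc
  obtain ⟨H, h1, h2, -⟩ := exists_tv hM (Z := T) (fun x hx => hM.trans hTM hx) hTc
  refine ⟨im (col H) H, ⟨col_trans, ?_⟩, mem_im.2 ⟨q, h1 hq, (col_fix hT h1 q hq).symm⟩⟩
  obtain ⟨τ, hτ⟩ := ud_Pr lm
  have h3 := (hτ M (fun x hx y hy => hM.trans hx hy) Fin.elim0 fun i => i.elim0).2 hP
  have h4 := (TV.sat_im hM h2 τ (v := Fin.elim0) fun i => i.elim0).2 h3
  exact (hτ {x | x ∈ im (col H) H} col_trans _ fun i => i.elim0).1 h4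

/-- Under `V = L` there is a formula for which the structures exist. -/
theorem exists_lm (hB : PieceB) (hV : VL) (hc : ℵ₀ ≤ c) : ∃ lm : Fml Empty 2,
    ∀ q ∈ HH c, ∃ X, Gd lm X ∧ q ∈ X := by
  have hL : LCls c (HH c) := hV.vlv.lcls hc (full_HH hc).jj
  obtain ⟨lm, hlm⟩ := dfn_iff.1 hL.wo.dfn
  have hP : Pr lm (HH c) := pr_M hB hL fun x hx y hy => by
    refine hlm ![x, y] fun i => ?_
    fin_cases i
    · exact hx
    · exact hy
  refine ⟨lm, fun q hq => ?_⟩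
  obtain ⟨T, h1, h2, h3⟩ := exists_tc hL.full (x := q) hq
  exact exists_gd hL hP h1 h2 h3

end Pool.Agent.W2helper55.HLM
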