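import Pool.Agent.W2helper55.HLM.Lw
import Pool.Agent.W4helper65.HLM.B

/-!
# The slaloms
-/

set_option autoImplicit false

open Cardinal Ordinal Set

namespace Pool.Agent.W2helper55.HLM

open Pool.Agent.W868 Pool.Agent.R587
open Pool.Agent.H348R6.HLT
open Pool.Agent.W2helper55.HL
open ZFSet (pair)

/-- What is used about the sequence of cardinals. -/
structure Mu (κ : Cardinal.{0}) (μ : Ordinal.{0} → Cardinal.{0}) : Prop where
  inf : ∀ α, ℵ₀ ≤ μ α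
  lt : ∀ α < κ.ord, μ α < κ
  card : ∀ α, α.card ≤ μ α
  grow : ∀ α α', α < α' → Order.succ (2 ^ μ α) ≤ μ α'

variable {κ : Cardinal.{0}} {μ : Ordinal.{0} → Cardinal.{0}}

theorem Mu.slt (h : Mu κ μ) {α α' : Ordinal.{0}} (hα : α < α') : μ α < μ α' :=
  (Cardinal.cantor _).trans ((Order.lt_succ _).trans_le (h.grow _ _ hα))

theorem Mu.mono (h : Mu κ μ) {α α' : Ordinal.{0}} (hα : α ≤ α') : μ α ≤ μ α' := by
  rcases hα.eq_or_lt with rfl | hα
  · exact le_rfl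
  · exact (h.slt hα).le

theorem Mu.le_ord (h : Mu κ μ) (α : Ordinal.{0}) : α ≤ (μ α).ord := by
  have h1 : StrictMono fun α => (μ α).ord := fun a b hab =>
    Cardinal.ord_lt_ord.2 (h.slt hab)
  exact h1.le_apply

theorem Mu.br_le (h : Mu κ μ) {α α' : Ordinal.{0}} (hα : α < α') : br μ α ≤ (μ α').ord :=
  Cardinal.ord_le_ord.2 ((Order.succ_le_succ (Order.succ_le_of_lt (Cardinal.cantor _))).trans
    (h.grow _ _ hα))

/-- The graph of a node. -/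
noncomputable def gph (t : Node.{0}) : ZFSet.{0} :=
  gr (fun u => (t.fn u.rank).toZFSet) t.len.toZFSet

/-- The code of a node. -/
noncomputable def cd (t : Node.{0}) : ZFSet.{0} := pair (gph t) t.len.toZFSet

theorem mem_gph {t : Node.{0}} {p : ZFSet.{0}} :
    p ∈ gph t ↔ ∃ ξ < t.len, p = pair ξ.toZFSet (t.fn ξ).toZFSet := by
  rw [gph, mem_gr]
  constructor
  · rintro ⟨u, hu, rfl⟩
    obtain ⟨ξ, hξ, rfl⟩ := Ordinal.mem_toZFSet_iff.1 hu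
    refine ⟨ξ, hξ, ?_⟩
    rw [Ordinal.rank_toZFSet]
  · rintro ⟨ξ, hξ, rfl⟩
    refine ⟨ξ.toZFSet, Ordinal.toZFSet_mem_toZFSet_iff.2 hξ, ?_⟩
    rw [Ordinal.rank_toZFSet]

theorem pair_mem_gph {t : Node.{0}} {ξ : Ordinal.{0}} (h : ξ < t.len) :
    pair ξ.toZFSet (t.fn ξ).toZFSet ∈ gph t := mem_gph.2 ⟨ξ, h, rfl⟩

theorem gph_uniq {t : Node.{0}} {ξ : Ordinal.{0}} {b : ZFSet.{0}}
    (h : pair ξ.toZFSet b ∈ gph t) : b = (t.fn ξ).toZFSet := by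
  obtain ⟨η, -, h1⟩ := mem_gph.1 h
  obtain ⟨h2, rfl⟩ := ZFSet.pair_inj.1 h1
  rw [Ordinal.toZFSet_injective h2]

/-- The generators. -/
def GS (μ : Ordinal.{0} → Cardinal.{0}) (α : Ordinal.{0}) : Set ZFSet.{0} :=
  {x | ∃ ξ ≤ (μ α).ord, x = ξ.toZFSet}

/-- The generators in `X`. -/
def Ge (μ : Ordinal.{0} → Cardinal.{0}) (X q : ZFSet.{0}) (α : Ordinal.{0}) : Set ZFSet.{0} :=
  insert q (GS μ α ∩ {x | x ∈ X})

theorem Mu.gs_mono (h : Mu κ μ) {α α' : Ordinal.{0}} (hα : α ≤ α') : GS μ α ⊆ GS μ α' := by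
  rintro x ⟨ξ, h1, rfl⟩
  exact ⟨ξ, h1.trans (Cardinal.ord_le_ord.2 (h.mono hα)), rfl⟩

theorem Mu.ge_mono (h : Mu κ μ) {X q : ZFSet.{0}} {α α' : Ordinal.{0}} (hα : α ≤ α') :
    Ge μ X q α ⊆ Ge μ X q α' :=
  Set.insert_subset_insert (Set.inter_subset_inter_left _ (h.gs_mono hα))

theorem mk_GS (h : Mu κ μ) (α : Ordinal.{0}) : #(GS μ α) ≤ Cardinal.lift.{1} (μ α) := by
  have h1 : GS μ α ⊆ (fun ξ : Ordinal.{0} => ξ.toZFSet) '' Iio ((μ α).ord + 1) := by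
    rintro x ⟨ξ, h1, rfl⟩
    exact ⟨ξ, Order.lt_add_one_iff.2 h1, rfl⟩
  refine (Cardinal.mk_le_mk_of_subset h1).trans (Cardinal.mk_image_le.trans ?_)
  rw [Cardinal.mk_Iio_ordinal, Cardinal.lift_le, Ordinal.card_add, Cardinal.card_ord,
    Ordinal.card_one]
  exact (Cardinal.add_one_eq (h.inf α)).le

theorem mk_Ge (h : Mu κ μ) (X q : ZFSet.{0}) (α : Ordinal.{0}) :
    #(Ge μ X q α) ≤ Cardinal.lift.{1} (μ α) := by
  refine Cardinal.mk_insert_le.trans ?_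
  have h1 := (Cardinal.mk_le_mk_of_subset (inter_subset_left (s := GS μ α)
    (t := {x | x ∈ X}))).trans (mk_GS h α)
  refine (add_le_add h1 le_rfl).trans (le_of_eq ?_)
  refine Cardinal.add_one_eq ?_
  rw [Cardinal.aleph0_le_lift]
  exact h.inf α

theorem mk_dcS {X A : Set ZFSet.{0}} (hA : A.Nonempty) {c : Cardinal.{0}} (hc : ℵ₀ ≤ c)
    (h : #A ≤ Cardinal.lift.{1} c) : #{x | Dc X A x} ≤ Cardinal.lift.{1} c := by
  have h1 : #A ≤ #(ULift.{1} c.out) := by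
    rw [Cardinal.mk_uLift, Cardinal.mk_out]
    exact h
  obtain ⟨f⟩ := h1
  have : Nonempty A := hA.to_subtype
  let g : c.out → ZFSet.{0} := fun o => (Function.invFun f (ULift.up o)).1
  have h2 : A ⊆ Set.range g := by
    intro a ha
    refine ⟨(f ⟨a, ha⟩).down, ?_⟩
    change (Function.invFun f (f ⟨a, ha⟩)).1 = a
    rw [Function.leftInverse_invFun f.injective]
  refine (Cardinal.mk_le_mk_of_subset fun x hx => ?_).trans
    (mk_dc (X := X) g hc (Cardinal.mk_out c).le)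
  exact Dc.mono h2 hx

/-- The slaloms. -/
def Sl (lm : Fml Empty 2) (μ : Ordinal.{0} → Cardinal.{0}) (α : Ordinal.{0}) (t : Node.{0}) :
    Set Ordinal.{0} :=
  {x | x < br μ α ∧ ∃ X, IsB lm X (cd t) ∧ Dc {y | y ∈ X} (Ge μ X (cd t) α) x.toZFSet}

theorem small (h : Mu κ μ) (lm : Fml Empty 2) (α : Ordinal.{0}) (t : Node.{0}) :
    #(Sl lm μ α t) ≤ Cardinal.lift.{1} (μ α) := by
  by_cases hX : ∃ X, IsB lm X (cd t)
  · obtain ⟨X, hX⟩ := hX
    have h1 : (fun x : Ordinal.{0} => x.toZFSet) '' (Sl lm μ α t) ⊆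
        {x | Dc {y | y ∈ X} (Ge μ X (cd t) α) x} := by
      rintro _ ⟨x, ⟨-, Y, hY, hx⟩, rfl⟩
      rw [hY.uniq hX] at hx
      exact hx
    rw [← Cardinal.mk_image_eq (f := fun x : Ordinal.{0} => x.toZFSet)
      Ordinal.toZFSet_injective]
    refine (Cardinal.mk_le_mk_of_subset h1).trans
      (mk_dcS ⟨cd t, Set.mem_insert _ _⟩ (h.inf α) (mk_Ge h X (cd t) α))
  · have h1 : Sl lm μ α t = ∅ := by
      rw [Set.eq_empty_iff_forall_notMem]
      rintro x ⟨-, X, h2, -⟩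
      exact hX ⟨X, h2⟩
    rw [h1, Cardinal.mk_eq_zero]
    exact zero_le

/-- The codes are in `H(κ⁺)`. -/
theorem cd_mem (h : Mu κ μ) (hκ : ℵ₀ ≤ κ) {t : Node.{0}} (ht : t ∈ fat κ (br μ)) :
    cd t ∈ HH κ := by
  have hM := full_HH hκ
  have hc : ∀ α : Ordinal.{0}, α < κ.ord → α.toZFSet ∈ HH κ := fun α hα =>
    Pool.Agent.W4helper65.HLM.ord_mem hM α (Cardinal.lt_ord.1 hα).le
  have hg : im (fun u => pair u (t.fn u.rank).toZFSet) t.len.toZFSet ∈ HH κ := by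
    refine hM.im_mem (hc _ ht.1) fun u hu => ?_
    obtain ⟨ξ, hξ, rfl⟩ := Ordinal.mem_toZFSet_iff.1 hu
    refine hM.pair_mem (hc _ (hξ.trans ht.1)) ?_
    rw [Ordinal.rank_toZFSet]
    refine hc _ ((ht.2 ξ hξ).trans_le ((h.br_le (Order.lt_add_one_iff.2 (le_refl ξ))).trans ?_))
    exact Cardinal.ord_le_ord.2 (h.lt _ (add_one_lt_ord hκ (hξ.trans ht.1))).le
  exact hM.pair_mem hg (hc _ ht.1)

end Pool.Agent.W2helper55.HLM
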