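import Pool.Agent.W2helper55.HLM.Sy

/-!
# The slaloms form a system
-/

set_option autoImplicit false

open Cardinal Ordinal Set

namespace Pool.Agent.W2helper55.HLM

open Pool.Agent.W868 Pool.Agent.R587
open Pool.Agent.H348R6.HLT
open Pool.Agent.W2helper55.HL
open ZFSet (pair)

variable {κ : Cardinal.{0}} {μ : Ordinal.{0} → Cardinal.{0}} {lm : Fml Empty 2}

section

variable (h : Mu κ μ) {X : ZFSet.{0}} {β : Ordinal.{0}} {t : Node.{0}}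
  (ht : t ∈ level (fat κ (br μ)) β) (hX : IsB lm X (cd t))

include hX

theorem gph_mem : gph t ∈ X := by
  have h1 := hX.2.1
  have h2 : ({gph t, t.len.toZFSet} : ZFSet.{0}) ∈ X :=
    hX.1.trans _ h1 _ (by simp [cd, ZFSet.pair])
  exact hX.1.trans _ h2 _ (by simp)

theorem len_mem : t.len.toZFSet ∈ X := by
  have h1 := hX.2.1
  have h2 : ({gph t, t.len.toZFSet} : ZFSet.{0}) ∈ X :=
    hX.1.trans _ h1 _ (by simp [cd, ZFSet.pair])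
  exact hX.1.trans _ h2 _ (by simp)

theorem ord_memX {ξ : Ordinal.{0}} (hξ : ξ < t.len) : ξ.toZFSet ∈ X :=
  hX.1.trans _ (len_mem hX) _ (Ordinal.toZFSet_mem_toZFSet_iff.2 hξ)

theorem pm_memX {ξ : Ordinal.{0}} (hξ : ξ < t.len) : pair ξ.toZFSet (t.fn ξ).toZFSet ∈ X :=
  hX.1.trans _ (gph_mem hX) _ (pair_mem_gph hξ)

theorem fn_memX {ξ : Ordinal.{0}} (hξ : ξ < t.len) : (t.fn ξ).toZFSet ∈ X := by
  have h2 : ({ξ.toZFSet, (t.fn ξ).toZFSet} : ZFSet.{0}) ∈ X :=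
    hX.1.trans _ (pm_memX hX hξ) _ (by simp [ZFSet.pair])
  exact hX.1.trans _ h2 _ (by simp)

/-- The generators with index less than `ε`. -/
def GU (μ : Ordinal.{0} → Cardinal.{0}) (X q : ZFSet.{0}) (ε : Ordinal.{0}) : Set ZFSet.{0} :=
  ⋃ m : Iio ε, Ge μ X q m.1

omit hX in
theorem ge_sub {q : ZFSet.{0}} (hq : q ∈ X) (α : Ordinal.{0}) : Ge μ X q α ⊆ {x | x ∈ X} := by
  rintro x (rfl | hx)
  · exact hq
  · exact hx.2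

omit hX in
theorem gu_sub {q : ZFSet.{0}} (hq : q ∈ X) (ε : Ordinal.{0}) : GU μ X q ε ⊆ {x | x ∈ X} :=
  Set.iUnion_subset fun m => ge_sub hq m.1

omit hX in
theorem ord_gu {q : ZFSet.{0}} {ε m ξ : Ordinal.{0}} (hm : m < ε) (hξ : ξ ≤ (μ m).ord)
    (hξX : ξ.toZFSet ∈ X) : ξ.toZFSet ∈ GU μ X q ε :=
  Set.mem_iUnion.2 ⟨⟨m, hm⟩, Or.inr ⟨⟨ξ, hξ, rfl⟩, hξX⟩⟩

omit hX in
theorem q_gu {q : ZFSet.{0}} {ε : Ordinal.{0}} (hε : Order.IsSuccLimit ε) : q ∈ GU μ X q ε :=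
  Set.mem_iUnion.2 ⟨⟨0, hε.bot_lt⟩, Or.inl rfl⟩

omit hX in
/-- The ordinals among the generators are fixed. -/
theorem ord_fix {q : ZFSet.{0}} (hX : Gd lm X) (hq : q ∈ X) {ε m : Ordinal.{0}} (hm : m < ε)
    (ξ : Ordinal.{0}) : ξ ≤ (μ m).ord → ξ.toZFSet ∈ X →
    col (Hz X (GU μ X q ε)) ξ.toZFSet = ξ.toZFSet := by
  induction ξ using WellFoundedLT.induction with
  | _ ξ ih =>
  intro h1 h2
  refine colfix fun u hu => ?_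
  obtain ⟨η, hη, rfl⟩ := Ordinal.mem_toZFSet_iff.1 hu
  have h3 : η.toZFSet ∈ X := hX.trans _ h2 _ hu
  exact ⟨(mem_Hz hX (gu_sub hq ε)).2 (.base (ord_gu hm (hη.le.trans h1) h3)),
    ih η hη (hη.le.trans h1) h3⟩

omit hX in
/-- Finitely many parameters are enough. -/
theorem dc_gu (h : Mu κ μ) {q : ZFSet.{0}} {ε : Ordinal.{0}} (hε : Order.IsSuccLimit ε)
    {z : ZFSet.{0}} (hz : Dc {x | x ∈ X} (GU μ X q ε) z) :
    ∃ m < ε, ∀ α, m ≤ α → Dc {x | x ∈ X} (Ge μ X q α) z := by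
  have : Nonempty (Iio ε) := ⟨⟨0, hε.bot_lt⟩⟩
  obtain ⟨m, hm⟩ := Dc.directed (A := fun m : Iio ε => Ge μ X q m.1) (fun i j => by
    rcases le_total i j with h1 | h1
    · exact ⟨j, h.ge_mono h1, subset_rfl⟩
    · exact ⟨i, subset_rfl, h.ge_mono h1⟩) hz
  exact ⟨m.1, m.2, fun α hα => hm.mono (h.ge_mono hα)⟩

include h ht

theorem fn_gu {ε ξ : Ordinal.{0}} (hε : Order.IsSuccLimit ε) (hεβ : ε ≤ β) (hξ : ξ < ε) :
    (t.fn ξ).toZFSet ∈ GU μ X (cd t) ε := by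
  have h1 : ξ < t.len := hξ.trans_le (hεβ.trans ht.2.ge)
  have h2 : ξ + 1 < ε := hε.succ_lt hξ
  refine ord_gu h2 (le_of_lt ?_) (fn_memX hX h1)
  exact (ht.1.2 ξ h1).trans_le (h.br_le (Order.lt_add_one_iff.2 (le_refl ξ)))

theorem fn_fix {ε ξ : Ordinal.{0}} (hε : Order.IsSuccLimit ε) (hεβ : ε ≤ β) (hξ : ξ < ε) :
    col (Hz X (GU μ X (cd t) ε)) (t.fn ξ).toZFSet = (t.fn ξ).toZFSet := by
  have h1 : ξ < t.len := hξ.trans_le (hεβ.trans ht.2.ge)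
  have h2 : ξ + 1 < ε := hε.succ_lt hξ
  refine ord_fix hX.1 hX.2.1 h2 _ (le_of_lt ?_) (fn_memX hX h1)
  exact (ht.1.2 ξ h1).trans_le (h.br_le (Order.lt_add_one_iff.2 (le_refl ξ)))

theorem ix_gu {ε ξ : Ordinal.{0}} (hεβ : ε ≤ β) (hξ : ξ < ε) :
    ξ.toZFSet ∈ GU μ X (cd t) ε :=
  ord_gu hξ (h.le_ord ξ) (ord_memX hX (hξ.trans_le (hεβ.trans ht.2.ge)))

theorem ix_fix {ε ξ : Ordinal.{0}} (hεβ : ε ≤ β) (hξ : ξ < ε) :
    col (Hz X (GU μ X (cd t) ε)) ξ.toZFSet = ξ.toZFSet :=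
  ord_fix hX.1 hX.2.1 hξ _ (h.le_ord ξ) (ord_memX hX (hξ.trans_le (hεβ.trans ht.2.ge)))

theorem pr_hz {ε ξ : Ordinal.{0}} (hε : Order.IsSuccLimit ε) (hεβ : ε ≤ β) (hξ : ξ < ε) :
    pair ξ.toZFSet (t.fn ξ).toZFSet ∈ Hz X (GU μ X (cd t) ε) ∧
    col (Hz X (GU μ X (cd t) ε)) (pair ξ.toZFSet (t.fn ξ).toZFSet) =
      pair ξ.toZFSet (t.fn ξ).toZFSet := by
  have hA := gu_sub (μ := μ) hX.2.1 ε
  have h1 := Dc.base (X := {x | x ∈ X}) (ix_gu h ht hX hεβ hξ)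
  have h2 := Dc.base (X := {x | x ∈ X}) (fn_gu h ht hX hε hεβ hξ)
  refine ⟨(mem_Hz hX.1 hA).2 (dc_pair hX.1 hA h1 h2), ?_⟩
  rw [col_pair' hX.1 hA ((mem_Hz hX.1 hA).2 h1) ((mem_Hz hX.1 hA).2 h2),
    ix_fix h ht hX hεβ hξ, fn_fix h ht hX hε hεβ hξ]

/-- Lemma A. -/
theorem lemA (hβ : Order.IsSuccLimit β) {z : ZFSet.{0}} (hz : z ∈ X) :
    ∃ m < β, ∀ α, m ≤ α → Dc {x | x ∈ X} (Ge μ X (cd t) α) z := by
  refine dc_gu h hβ (hX.gen (gu_sub hX.2.1 β) (q_gu hβ) ?_ z hz)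
  have hA := gu_sub (μ := μ) hX.2.1 β
  intro a ha
  obtain ⟨⟨m, hm⟩, ha⟩ := Set.mem_iUnion.1 ha
  rcases ha with rfl | ⟨⟨ξ, hξ, rfl⟩, hξX⟩
  · have hq := Dc.base (X := {x | x ∈ X}) (q_gu (μ := μ) (X := X) (q := cd t) hβ)
    have h1 : col (Hz X (GU μ X (cd t) β)) (gph t) = gph t := by
      refine colfix fun p hp => ?_
      obtain ⟨ξ, hξ, rfl⟩ := mem_gph.1 hp
      exact pr_hz h ht hX hβ le_rfl (hξ.trans_le ht.2.le)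
    have h2 : col (Hz X (GU μ X (cd t) β)) t.len.toZFSet = t.len.toZFSet := by
      refine colfix fun u hu => ?_
      obtain ⟨ξ, hξ, rfl⟩ := Ordinal.mem_toZFSet_iff.1 hu
      have hξ' := hξ.trans_le ht.2.le
      exact ⟨(mem_Hz hX.1 hA).2 (.base (ix_gu h ht hX le_rfl hξ')), ix_fix h ht hX le_rfl hξ'⟩
    change col (Hz X (GU μ X (cd t) β)) (pair (gph t) t.len.toZFSet) = pair (gph t) t.len.toZFSet
    rw [col_pair' hX.1 hA ((mem_Hz hX.1 hA).2 (dc_fst hX.1 hA hq))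
      ((mem_Hz hX.1 hA).2 (dc_snd hX.1 hA hq)), h1, h2]
  · exact ord_fix hX.1 hX.2.1 hm ξ hξ hξX

/-- One half of Lemma B. -/
theorem lemB (hβ : Order.IsSuccLimit β) {s : Node.{0}} (hs : s ∈ level (fat κ (br μ)) β)
    (hsX : cd s ∈ X) : ∃ m < β, ∀ α, m ≤ α → α < β → s.fn α ∈ Sl lm μ α t := by
  obtain ⟨m, hm, h1⟩ := lemA h ht hX hβ hsX
  refine ⟨m, hm, fun α hmα hα => ?_⟩
  have hA := ge_sub (μ := μ) hX.2.1 α
  have h2 := dc_fst hX.1 hA (h1 α hmα)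
  have h3 : Dc {x | x ∈ X} (Ge μ X (cd t) α) α.toZFSet :=
    .base (Or.inr ⟨⟨α, h.le_ord α, rfl⟩, ord_memX hX (hα.trans_le ht.2.ge)⟩)
  have hαs : α < s.len := hα.trans_le hs.2.ge
  exact ⟨hs.1.2 α hαs, X, hX, dc_app hX.1 hA h2 h3 (pair_mem_gph hαs) fun b hb => gph_uniq hb⟩

end

/-- Lemma B. -/
theorem cap (h : Mu κ μ) (hκ : ℵ₀ ≤ κ) (hex : ∀ q ∈ HH κ, ∃ X, Gd lm X ∧ q ∈ X)
    {β : Ordinal.{0}} (hβ : Order.IsSuccLimit β) {s t : Node.{0}}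
    (hs : s ∈ level (fat κ (br μ)) β) (ht : t ∈ level (fat κ (br μ)) β) :
    ∃ m < β, ∀ α, m ≤ α → α < β → s.fn α ∈ Sl lm μ α t ∨ t.fn α ∈ Sl lm μ α s := by
  obtain ⟨X, hX⟩ := exists_B (hex _ (cd_mem h hκ ht.1))
  obtain ⟨Y, hY⟩ := exists_B (hex _ (cd_mem h hκ hs.1))
  have h1 : cd s ∈ X ∨ cd t ∈ Y := by
    rcases hX.1.tri hY.1 with h1 | h1 | h1
    · exact Or.inl (h1 ▸ hY.2.1)
    · exact Or.inr (hY.1.trans _ h1 _ hX.2.1)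
    · exact Or.inl (hX.1.trans _ h1 _ hY.2.1)
  rcases h1 with h1 | h1
  · obtain ⟨m, hm, h2⟩ := lemB h ht hX hβ hs h1
    exact ⟨m, hm, fun α h3 h4 => Or.inl (h2 α h3 h4)⟩
  · obtain ⟨m, hm, h2⟩ := lemB h hs hY hβ ht h1
    exact ⟨m, hm, fun α h3 h4 => Or.inr (h2 α h3 h4)⟩

/-- The collapse of a hull is not larger. -/
theorem col_sub {X : ZFSet.{0}} (hX : Gd lm X) {A : Set ZFSet.{0}} (hA : A ⊆ {x | x ∈ X}) :
    ∀ x ∈ im (col (Hz X A)) (Hz X A), x ∈ X := by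
  intro x hx
  rcases (gd_col hX hA).tri hX with h1 | h1 | h1
  · exact h1 ▸ hx
  · exact hX.trans _ h1 _ hx
  · exfalso
    obtain ⟨y, hy, h3⟩ := mem_im.1 h1
    have hyX : y ∈ X := ((mem_Hz hX hA).1 hy).mem hA
    have h4 : (col (Hz X A) y).rank ≤ y.rank := rank_col_le _ _
    rw [← h3] at h4
    exact absurd (ZFSet.rank_lt_of_mem hyX) (not_lt.2 h4)

/-- Lemma C. -/
theorem good (h : Mu κ μ) (hκ : ℵ₀ ≤ κ) (hex : ∀ q ∈ HH κ, ∃ X, Gd lm X ∧ q ∈ X)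
    {β ε : Ordinal.{0}} (hεβ : ε < β) (hε : Order.IsSuccLimit ε) {t : Node.{0}}
    (ht : t ∈ level (fat κ (br μ)) β) :
    ∃ a < ε, ∀ α, a ≤ α → α < ε → Sl lm μ α (cut t ε) ⊆ Sl lm μ α t := by
  obtain ⟨X, hX⟩ := exists_B (hex _ (cd_mem h hκ ht.1))
  set A := GU μ X (cd t) ε with hAdef
  have hA : A ⊆ {x | x ∈ X} := gu_sub hX.2.1 ε
  set N := Hz X A with hN
  have hmN : ∀ {x : ZFSet.{0}}, x ∈ N ↔ Dc {y | y ∈ X} A x := fun {x} => mem_Hz hX.1 hA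
  have hq : Dc {x | x ∈ X} A (cd t) := .base (q_gu hε)
  have hf : Dc {x | x ∈ X} A (gph t) := dc_fst hX.1 hA hq
  have hlen : Dc {x | x ∈ X} A t.len.toZFSet := dc_snd hX.1 hA hq
  have hεl : ε < t.len := hεβ.trans_le ht.2.ge
  -- the least ordinal of the hull that is not below `ε`
  have hne : {ξ : Ordinal.{0} | ε ≤ ξ ∧ ξ.toZFSet ∈ N}.Nonempty :=
    ⟨t.len, hεl.le, hmN.2 hlen⟩
  set ν := sInf {ξ : Ordinal.{0} | ε ≤ ξ ∧ ξ.toZFSet ∈ N} with hν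
  obtain ⟨hν1, hν2⟩ : ε ≤ ν ∧ ν.toZFSet ∈ N := csInf_mem hne
  have hνl : ν ≤ t.len := csInf_le' ⟨hεl.le, hmN.2 hlen⟩
  have hν3 : ∀ η < ν, η.toZFSet ∈ N → η < ε := by
    intro η hη h1
    by_contra h2
    exact absurd hη (not_lt.2 (csInf_le' ⟨not_lt.1 h2, h1⟩))
  have hcν : col N ν.toZFSet = ε.toZFSet := by
    ext y
    rw [mem_col]
    constructor
    · rintro ⟨u, hu, huN, rfl⟩
      obtain ⟨η, hη, rfl⟩ := Ordinal.mem_toZFSet_iff.1 hu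
      have h1 := hν3 η hη huN
      rw [hN, ix_fix h ht hX hεβ.le h1]
      exact Ordinal.toZFSet_mem_toZFSet_iff.2 h1
    · intro hy
      obtain ⟨η, hη, rfl⟩ := Ordinal.mem_toZFSet_iff.1 hy
      refine ⟨η.toZFSet, Ordinal.toZFSet_mem_toZFSet_iff.2 (hη.trans_le hν1),
        hmN.2 (.base (ix_gu h ht hX hεβ.le hη)), (ix_fix h ht hX hεβ.le hη).symm⟩
  obtain ⟨u, hu, huR⟩ := dc_rst hX.1 hA hf (hmN.1 hν2)
  have hcl : (cut t ε).len = ε := cut_len hεl.le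
  have hcu : col N u = gph (cut t ε) := by
    ext y
    rw [mem_col, mem_gph, hcl]
    constructor
    · rintro ⟨p, hp, hpN, rfl⟩
      obtain ⟨h1, a, b, rfl, h2⟩ := huR.1 p hp
      obtain ⟨η, hη, h3⟩ := mem_gph.1 h1
      obtain ⟨rfl, rfl⟩ := ZFSet.pair_inj.1 h3
      have h4 : η.toZFSet ∈ N := hmN.2 (dc_fst hX.1 hA (hmN.1 hpN))
      have h5 := hν3 η (Ordinal.toZFSet_mem_toZFSet_iff.1 h2) h4
      refine ⟨η, h5, ?_⟩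
      rw [hN, (pr_hz h ht hX hε hεβ.le h5).2, cut_fn h5]
    · rintro ⟨η, hη, rfl⟩
      have h1 := pr_hz h ht hX hε hεβ.le hη
      refine ⟨_, huR.2 _ (pair_mem_gph (hη.trans hεl)) ⟨_, _, rfl,
        Ordinal.toZFSet_mem_toZFSet_iff.2 (hη.trans_le hν1)⟩, h1.1, ?_⟩
      rw [hN, h1.2, cut_fn hη]
  set q' := pair u ν.toZFSet with hq'
  have hq'D : Dc {x | x ∈ X} A q' := dc_pair hX.1 hA hu (hmN.1 hν2)
  have hcq : col N q' = cd (cut t ε) := by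
    rw [hq', hN, col_pair' hX.1 hA (hmN.2 hu) hν2, ← hN, hcu, hcν, cd, hcl]
  obtain ⟨a, ha, haq⟩ := dc_gu h hε hq'D
  refine ⟨a, ha, fun α haα hαε x hx => ?_⟩
  obtain ⟨hx1, Y, hY, hx2⟩ := hx
  refine ⟨hx1, X, hX, ?_⟩
  set Xb := im (col N) N with hXb
  have hXbG : Gd lm Xb := gd_col hX.1 hA
  have hXbX : ∀ x ∈ Xb, x ∈ X := col_sub hX.1 hA
  have hqXb : cd (cut t ε) ∈ Xb := mem_im.2 ⟨q', hmN.2 hq'D, hcq.symm⟩
  have hordN : ∀ ξ : Ordinal.{0}, ∀ m < ε, ξ ≤ (μ m).ord → ξ.toZFSet ∈ X →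
      ξ.toZFSet ∈ N ∧ col N ξ.toZFSet = ξ.toZFSet := by
    intro ξ m hm h1 h2
    exact ⟨hmN.2 (.base (ord_gu hm h1 h2)), ord_fix hX.1 hX.2.1 hm ξ h1 h2⟩
  -- step 1
  have hs1 : Dc {y | y ∈ Xb} (insert (cd (cut t ε)) (GS μ α ∩ {x | x ∈ Xb})) x.toZFSet := by
    have hA1 : insert (cd (cut t ε)) (GS μ α ∩ {x | x ∈ Xb}) ⊆ {x | x ∈ Xb} := ge_sub hqXb α
    refine dc_B hXbG hA1 hY (.base (Set.mem_insert _ _)) ?_ hx2
    rintro b (rfl | hb)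
    · exact .base (Set.mem_insert _ _)
    · refine .base (Or.inr ⟨hb.1, ?_⟩)
      rcases hY.sub hXbG hqXb with h1 | h1
      · exact h1 ▸ hb.2
      · exact hXbG.trans _ h1 _ hb.2
  have hxX : x.toZFSet ∈ X := hXbX _ (Dc.mem (ge_sub (μ := μ) hqXb α) hs1)
  obtain ⟨hxN, hxc⟩ := hordN x (α + 1) (hε.succ_lt hαε)
    (hx1.le.trans (h.br_le (Order.lt_add_one_iff.2 (le_refl α)))) hxX
  -- step 2
  have himg : insert (cd (cut t ε)) (GS μ α ∩ {x | x ∈ Xb}) =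
      col N '' insert q' (GS μ α ∩ {x | x ∈ X}) := by
    rw [Set.image_insert_eq, hcq]
    congr 1
    ext z
    constructor
    · rintro ⟨⟨ξ, hξ, rfl⟩, hz⟩
      have h1 := hXbX _ hz
      exact ⟨ξ.toZFSet, ⟨⟨ξ, hξ, rfl⟩, h1⟩, (hordN ξ α hαε hξ h1).2⟩
    · rintro ⟨z, ⟨⟨ξ, hξ, rfl⟩, hz⟩, rfl⟩
      obtain ⟨h1, h2⟩ := hordN ξ α hαε hξ hz
      refine ⟨⟨ξ, hξ, h2⟩, ?_⟩
      exact mem_im.2 ⟨_, h1, rfl⟩
  have hA2 : insert q' (GS μ α ∩ {x | x ∈ X}) ⊆ {x | x ∈ N} := by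
    rintro b (rfl | ⟨⟨ξ, hξ, rfl⟩, hb⟩)
    · exact hmN.2 hq'D
    · exact (hordN ξ α hαε hξ hb).1
  rw [himg] at hs1
  have hs2 : Dc {y | y ∈ N} (insert q' (GS μ α ∩ {x | x ∈ X})) x.toZFSet :=
    dc_col (xt_Hz hX.1 hA) hA2 hs1 _ hxN hxc.symm
  have hs3 : Dc {y | y ∈ X} (insert q' (GS μ α ∩ {x | x ∈ X})) x.toZFSet :=
    (dc_tv (tv_Hz hX.1 hA) hA2).2 hs2
  refine hs3.trans' ?_
  rintro b (rfl | hb)
  · exact haq α haα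
  · exact .base (Or.inr hb)

/-- The system. -/
theorem sys (h : Mu κ μ) (hκ : ℵ₀ ≤ κ) (hex : ∀ q ∈ HH κ, ∃ X, Gd lm X ∧ q ∈ X) :
    Sys κ μ (Sl lm μ) where
  inf := h.inf
  lt := h.lt
  card := h.card
  grow := h.grow
  small := small h lm
  cap _ _ hβ _ hs _ ht := cap h hκ hex hβ hs ht
  good _ _ _ _ hεβ hε _ ht := good h hκ hex hεβ hε ht

end Pool.Agent.W2helper55.HLM
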