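import Pool.Agent.R587.Core

/-!
# Uniform definability over transitive classes
-/

set_option autoImplicit false

namespace Pool.Agent.W2helper55.HLM

open Pool.Agent.W868 Pool.Agent.R587
open ZFSet (pair)

/-- `R X` is defined by one formula without parameters in all transitive classes `X`. -/
def UD {n : ℕ} (R : Set ZFSet.{0} → (Fin n → ZFSet.{0}) → Prop) : Prop :=
  ∃ φ : Fml Empty n, ∀ M : Set ZFSet.{0}, (∀ x ∈ M, ∀ y ∈ x, y ∈ M) →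
    ∀ v, (∀ i, v i ∈ M) → (Sat M Empty.elim φ v ↔ R M v)

section

variable {n : ℕ} {R T : Set ZFSet.{0} → (Fin n → ZFSet.{0}) → Prop}

theorem UD.not (h : UD R) : UD fun M v => ¬ R M v := by
  obtain ⟨φ, hφ⟩ := h
  exact ⟨.neg φ, fun M hM v hv => not_congr (hφ M hM v hv)⟩

theorem UD.congr (h : UD R) (h' : ∀ M v, R M v ↔ T M v) : UD T := by
  obtain ⟨φ, hφ⟩ := h
  exact ⟨φ, fun M hM v hv => (hφ M hM v hv).trans (h' M v)⟩

theorem UD.congr' (h : UD R) (h' : ∀ M v, (∀ x ∈ M, ∀ y ∈ x, y ∈ M) → (R M v ↔ T M v)) :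
    UD T := by
  obtain ⟨φ, hφ⟩ := h
  exact ⟨φ, fun M hM v hv => (hφ M hM v hv).trans (h' M v hM)⟩

theorem empty_mem_of {M : Set ZFSet.{0}} (hM : ∀ x ∈ M, ∀ y ∈ x, y ∈ M) {x : ZFSet.{0}}
    (hx : x ∈ M) : (∅ : ZFSet.{0}) ∈ M := by
  induction x using ZFSet.inductionOn with
  | _ x ih =>
  rcases ZFSet.eq_empty_or_nonempty x with rfl | ⟨y, hy⟩
  · exact hx
  · exact ih y hy (hM x hx y hy)

theorem UD.and (h : UD R) (h' : UD T) : UD fun M v => R M v ∧ T M v := by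
  obtain ⟨φ, hφ⟩ := h
  obtain ⟨ψ, hψ⟩ := h'
  exact ⟨.and φ ψ, fun M hM v hv => and_congr (hφ M hM v hv) (hψ M hM v hv)⟩

theorem UD.or (h : UD R) (h' : UD T) : UD fun M v => R M v ∨ T M v :=
  (h.not.and h'.not).not.congr fun M v => by tauto

theorem UD.imp (h : UD R) (h' : UD T) : UD fun M v => R M v → T M v :=
  (h.and h'.not).not.congr fun M v => by tauto

theorem UD.d0 {R : (Fin n → ZFSet.{0}) → Prop} (h : D0 R) : UD fun _ v => R v := h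

theorem UD.fml (φ : Fml Empty n) : UD fun M v => Sat M Empty.elim φ v :=
  ⟨φ, fun _ _ _ _ => Iff.rfl⟩

theorem UD.ex {Q : Set ZFSet.{0} → ZFSet.{0} → (Fin n → ZFSet.{0}) → Prop}
    (h : UD fun M (w : Fin (n + 1) → ZFSet.{0}) => Q M (w 0) (Fin.tail w)) :
    UD fun M v => ∃ a ∈ M, Q M a v := by
  obtain ⟨φ, hφ⟩ := h
  refine ⟨.ex φ, fun M hM v hv => ?_⟩
  simp only [Sat]
  have hc : ∀ a ∈ M, ∀ i, (Fin.cons a v : Fin (n + 1) → ZFSet.{0}) i ∈ M := by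
    intro a ha i
    refine Fin.cases ?_ (fun i => ?_) i
    · exact ha
    · exact hv i
  constructor
  · rintro ⟨a, ha, h3⟩
    exact ⟨a, ha, (hφ M hM _ (hc a ha)).1 h3⟩
  · rintro ⟨a, ha, h3⟩
    exact ⟨a, ha, (hφ M hM _ (hc a ha)).2 h3⟩

theorem UD.all {Q : Set ZFSet.{0} → ZFSet.{0} → (Fin n → ZFSet.{0}) → Prop}
    (h : UD fun M (w : Fin (n + 1) → ZFSet.{0}) => Q M (w 0) (Fin.tail w)) :
    UD fun M v => ∀ a ∈ M, Q M a v := by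
  have h1 : UD fun M v => ∃ a ∈ M, ¬ Q M a v := UD.ex h.not
  exact h1.not.congr fun M v => by
    constructor
    · intro h2 a ha
      by_contra h3
      exact h2 ⟨a, ha, h3⟩
    · rintro h2 ⟨a, ha, h3⟩
      exact h3 (h2 a ha)

theorem UD.comp (h : UD R) {m : ℕ} (ρ : Fin n → Fin m) :
    UD fun M (v : Fin m → ZFSet.{0}) => R M fun i => v (ρ i) := by
  obtain ⟨φ, hφ⟩ := h
  refine ⟨φ.subst fun i => Sum.inl (ρ i), fun M hM v hv => ?_⟩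
  rw [sat_subst]
  exact hφ M hM _ fun i => hv _

end

/-- The relation defined by the formula `lm` in `X`. -/
def Lt (lm : Fml Empty 2) (X : Set ZFSet.{0}) (x y : ZFSet.{0}) : Prop :=
  Sat X Empty.elim lm ![x, y]

theorem UD.lt (lm : Fml Empty 2) {n : ℕ} (i j : Fin n) : UD fun M v => Lt lm M (v i) (v j) := by
  refine ((UD.fml lm).comp ![i, j]).congr fun M v => ?_
  unfold Lt
  have h : (fun k => v ((![i, j] : Fin 2 → Fin n) k)) = ![v i, v j] := by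
    funext k
    fin_cases k <;> rfl
  rw [h]

/-- `u` is the restriction of the relation `t` to `ν`. -/
def Rst (t ν u : ZFSet.{0}) : Prop :=
  (∀ p ∈ u, p ∈ t ∧ ∃ a b, p = pair a b ∧ a ∈ ν) ∧
    ∀ p ∈ t, (∃ a b, p = pair a b ∧ a ∈ ν) → p ∈ u

theorem d0_Rst : D0 fun v : Fin 3 → ZFSet.{0} => Rst (v 0) (v 1) (v 2) := by
  unfold Rst
  have h : D0 fun w : Fin 4 → ZFSet.{0} => ∃ a b, w 0 = pair a b ∧ a ∈ w 2 :=
    D0.expair (Q := fun a _ w => a ∈ w 2) (D0v.proj 0) (D0.mem (D0v.proj _) (D0v.proj _))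
  apply D0.and
  · apply D0.ball (Q := fun p v => p ∈ v 0 ∧ ∃ a b, p = pair a b ∧ a ∈ v 1) (D0v.proj 2)
    exact (D0.mem (D0v.proj _) (D0v.proj _)).and h
  · apply D0.ball (Q := fun p v => (∃ a b, p = pair a b ∧ a ∈ v 1) → p ∈ v 2) (D0v.proj 0)
    exact h.imp (D0.mem (D0v.proj _) (D0v.proj _))

/-- The properties of the structures `X` other than transitivity. -/
structure Pr (lm : Fml Empty 2) (X : Set ZFSet.{0}) : Prop where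
  pairing : ∀ x ∈ X, ∀ y ∈ X, ∃ z ∈ X, z = ({x, y} : ZFSet.{0})
  psi : ∀ x ∈ X, ∃ f ∈ X, Psi ∅ x f
  tri : ∀ x ∈ X, ∀ y ∈ X, Lt lm X x y ∨ x = y ∨ Lt lm X y x
  trn : ∀ x ∈ X, ∀ y ∈ X, ∀ z ∈ X, Lt lm X x y → Lt lm X y z → Lt lm X x z
  rk : ∀ y ∈ X, ∃ f ∈ X, (∀ z ∈ X, Lt lm X z y → ∃ o ∈ X, pair z o ∈ f) ∧
      ∀ z ∈ X, ∀ z' ∈ X, ∀ o ∈ X, ∀ o' ∈ X, pair z o ∈ f → pair z' o' ∈ f → Lt lm X z' z → o' ∈ o
  rst : ∀ t ∈ X, ∀ ν ∈ X, ∃ u ∈ X, Rst t ν u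
  ne : ∃ x ∈ X, x = x

theorem ud_Pr (lm : Fml Empty 2) : UD fun M (_ : Fin 0 → ZFSet.{0}) => Pr lm M := by
  have h1 : UD fun M (_ : Fin 0 → ZFSet.{0}) =>
      ∀ x ∈ M, ∀ y ∈ M, ∃ z ∈ M, z = ({x, y} : ZFSet.{0}) := by
    refine UD.all (Q := fun M x _ => ∀ y ∈ M, ∃ z ∈ M, z = ({x, y} : ZFSet.{0})) ?_
    refine UD.all (Q := fun M y w => ∃ z ∈ M, z = ({w 0, y} : ZFSet.{0})) ?_
    refine UD.ex (Q := fun M z w => z = ({w 1, w 0} : ZFSet.{0})) ?_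
    refine UD.d0 ?_
    have h : D0 fun w : Fin 3 → ZFSet.{0} => w 2 ∈ w 0 ∧ w 1 ∈ w 0 ∧ ∀ x ∈ w 0, x = w 2 ∨ x = w 1 := by
      refine (D0.mem (D0v.proj _) (D0v.proj _)).and ((D0.mem (D0v.proj _) (D0v.proj _)).and ?_)
      refine D0.ball (Q := fun x w => x = w 2 ∨ x = w 1) (D0v.proj 0) ?_
      exact (D0.eq (D0v.proj _) (D0v.proj 3)).or (D0.eq (D0v.proj _) (D0v.proj 2))
    refine h.congr fun v => ?_
    constructor
    · rintro ⟨h2, h3, h4⟩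
      change v 0 = {v 2, v 1}
      ext z
      rw [ZFSet.mem_pair]
      exact ⟨fun hz => h4 z hz, fun hz => hz.elim (fun h => h ▸ h2) (fun h => h ▸ h3)⟩
    · intro h2
      have h2' : v 0 = {v 2, v 1} := h2
      rw [h2']
      simp
  have h2 : UD fun M (_ : Fin 0 → ZFSet.{0}) => ∀ x ∈ M, ∃ f ∈ M, Psi ∅ x f := by
    have h : UD fun M (_ : Fin 0 → ZFSet.{0}) => ∀ x ∈ M, ∃ f ∈ M, ∃ e ∈ M,
        (∀ w ∈ e, w ∈ w) ∧ Psi e x f := by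
      refine UD.all (Q := fun M x _ => ∃ f ∈ M, ∃ e ∈ M, (∀ w ∈ e, w ∈ w) ∧ Psi e x f) ?_
      refine UD.ex (Q := fun M f w => ∃ e ∈ M, (∀ w ∈ e, w ∈ w) ∧ Psi e (w 0) f) ?_
      refine UD.ex (Q := fun M e w => (∀ w ∈ e, w ∈ w) ∧ Psi e (w 1) (w 0)) ?_
      refine UD.d0 (D0.and ?_ (d0_Psi.comp ![0, 2, 1]))
      refine D0.ball (Q := fun w _ => w ∈ w) (D0v.proj 0) ?_
      exact D0.mem (D0v.proj 0) (D0v.proj 0)
    refine h.congr' fun M v hM => ?_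
    refine forall_congr' fun x => forall_congr' fun hx => exists_congr fun f => ?_
    constructor
    · rintro ⟨hf, e, he, h1, h2⟩
      have h3 : e = ∅ := by
        rw [ZFSet.eq_empty]
        exact fun w hw => ZFSet.mem_irrefl _ (h1 w hw)
      exact ⟨hf, h3 ▸ h2⟩
    · rintro ⟨hf, h2⟩
      exact ⟨hf, ∅, empty_mem_of hM hf, fun w hw => absurd hw (ZFSet.notMem_empty w), h2⟩
  have h3 : UD fun M (_ : Fin 0 → ZFSet.{0}) =>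
      ∀ x ∈ M, ∀ y ∈ M, Lt lm M x y ∨ x = y ∨ Lt lm M y x := by
    refine UD.all (Q := fun M x _ => ∀ y ∈ M, Lt lm M x y ∨ x = y ∨ Lt lm M y x) ?_
    refine UD.all (Q := fun M y w => Lt lm M (w 0) y ∨ w 0 = y ∨ Lt lm M y (w 0)) ?_
    exact (UD.lt lm 1 0).or ((UD.d0 (D0.eq (D0v.proj 1) (D0v.proj 0))).or (UD.lt lm 0 1))
  have h4 : UD fun M (_ : Fin 0 → ZFSet.{0}) =>
      ∀ x ∈ M, ∀ y ∈ M, ∀ z ∈ M, Lt lm M x y → Lt lm M y z → Lt lm M x z := by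
    refine UD.all (Q := fun M x _ => ∀ y ∈ M, ∀ z ∈ M, Lt lm M x y → Lt lm M y z → Lt lm M x z) ?_
    refine UD.all (Q := fun M y w => ∀ z ∈ M, Lt lm M (w 0) y → Lt lm M y z → Lt lm M (w 0) z) ?_
    refine UD.all (Q := fun M z w => Lt lm M (w 1) (w 0) → Lt lm M (w 0) z → Lt lm M (w 1) z) ?_
    exact (UD.lt lm 2 1).imp ((UD.lt lm 1 0).imp (UD.lt lm 2 0))
  have h5 : UD fun M (_ : Fin 0 → ZFSet.{0}) => ∀ y ∈ M, ∃ f ∈ M,
      (∀ z ∈ M, Lt lm M z y → ∃ o ∈ M, pair z o ∈ f) ∧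
      ∀ z ∈ M, ∀ z' ∈ M, ∀ o ∈ M, ∀ o' ∈ M, pair z o ∈ f → pair z' o' ∈ f →
        Lt lm M z' z → o' ∈ o := by
    refine UD.all (Q := fun M y _ => ∃ f ∈ M,
      (∀ z ∈ M, Lt lm M z y → ∃ o ∈ M, pair z o ∈ f) ∧
      ∀ z ∈ M, ∀ z' ∈ M, ∀ o ∈ M, ∀ o' ∈ M, pair z o ∈ f → pair z' o' ∈ f →
        Lt lm M z' z → o' ∈ o) ?_
    refine UD.ex (Q := fun M f w => (∀ z ∈ M, Lt lm M z (w 0) → ∃ o ∈ M, pair z o ∈ f) ∧
      ∀ z ∈ M, ∀ z' ∈ M, ∀ o ∈ M, ∀ o' ∈ M, pair z o ∈ f → pair z' o' ∈ f →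
        Lt lm M z' z → o' ∈ o) ?_
    refine UD.and ?_ ?_
    · refine UD.all (Q := fun M z w => Lt lm M z (w 1) → ∃ o ∈ M, pair z o ∈ w 0) ?_
      refine (UD.lt lm 0 2).imp ?_
      refine UD.ex (Q := fun M o w => pair (w 0) o ∈ w 1) ?_
      exact UD.d0 (D0.pairMem (D0v.proj 1) (D0v.proj 0) (D0v.proj 2))
    · refine UD.all (Q := fun M z w => ∀ z' ∈ M, ∀ o ∈ M, ∀ o' ∈ M, pair z o ∈ w 0 →
        pair z' o' ∈ w 0 → Lt lm M z' z → o' ∈ o) ?_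
      refine UD.all (Q := fun M z' w => ∀ o ∈ M, ∀ o' ∈ M, pair (w 0) o ∈ w 1 →
        pair z' o' ∈ w 1 → Lt lm M z' (w 0) → o' ∈ o) ?_
      refine UD.all (Q := fun M o w => ∀ o' ∈ M, pair (w 1) o ∈ w 2 →
        pair (w 0) o' ∈ w 2 → Lt lm M (w 0) (w 1) → o' ∈ o) ?_
      refine UD.all (Q := fun M o' w => pair (w 2) (w 0) ∈ w 3 →
        pair (w 1) o' ∈ w 3 → Lt lm M (w 1) (w 2) → o' ∈ w 0) ?_
      exact (UD.d0 (D0.pairMem (D0v.proj 3) (D0v.proj 1) (D0v.proj 4))).imp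
        ((UD.d0 (D0.pairMem (D0v.proj 2) (D0v.proj 0) (D0v.proj 4))).imp
        ((UD.lt lm 2 3).imp (UD.d0 (D0.mem (D0v.proj 0) (D0v.proj 1)))))
  have h6 : UD fun M (_ : Fin 0 → ZFSet.{0}) => ∀ t ∈ M, ∀ ν ∈ M, ∃ u ∈ M, Rst t ν u := by
    refine UD.all (Q := fun M t _ => ∀ ν ∈ M, ∃ u ∈ M, Rst t ν u) ?_
    refine UD.all (Q := fun M ν w => ∃ u ∈ M, Rst (w 0) ν u) ?_
    refine UD.ex (Q := fun M u w => Rst (w 1) (w 0) u) ?_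
    exact UD.d0 (d0_Rst.comp ![2, 1, 0])
  have h7 : UD fun M (_ : Fin 0 → ZFSet.{0}) => ∃ x ∈ M, x = x := by
    refine UD.ex (Q := fun M x w => x = x) ?_
    exact UD.d0 (D0.eq (D0v.proj 0) (D0v.proj 0))
  refine (h1.and (h2.and (h3.and (h4.and (h5.and (h6.and h7)))))).congr fun M v => ?_
  exact ⟨fun ⟨a, b, c, d, e, f, g⟩ => ⟨a, b, c, d, e, f, g⟩,
    fun ⟨a, b, c, d, e, f, g⟩ => ⟨a, b, c, d, e, f, g⟩⟩

end Pool.Agent.W2helper55.HLM
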